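import Mathlib

/-!
# Maximal ideal independent families below the continuum and atomic quotients of `P(ω)`

We show that an infinite cardinal `κ < 𝔠` is the cardinality of a maximal ideal independent
family if and only if there is an ideal `N` on `ω`, generated by at most `κ` sets, such that
`P(ω)/N` is atomic with exactly `κ` atoms; if `κ` has countable cofinality then fewer than `κ`
generators suffice.  This yields an exact reformulation of the statement
`𝔰_mm = κ` for cardinals `κ` of countable cofinality.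
-/

open Cardinal Set

namespace Pool.Agent.Results.MP_3fc19d_lc.CountableCofinality

/-- `I` is ideal independent: a family of infinite subsets of `ω` such that `A \ ⋃ F` is infinite
for every `A ∈ I` and every finite `F ⊆ I \ {A}`. -/
def IdealIndependent (I : Set (Set ℕ)) : Prop :=
  (∀ A ∈ I, A.Infinite) ∧
    ∀ A ∈ I, ∀ F : Set (Set ℕ), F.Finite → F ⊆ I → A ∉ F → (A \ ⋃₀ F).Infinite

/-- `I` is a maximal ideal independent family. -/
def MaxIdealIndependent (I : Set (Set ℕ)) : Prop :=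
  IdealIndependent I ∧ ∀ J : Set (Set ℕ), IdealIndependent J → I ⊆ J → J = I

/-- `𝔰_mm`: the least cardinality of an infinite maximal ideal independent family. -/
noncomputable def smm : Cardinal.{0} :=
  sInf {κ | ∃ I : Set (Set ℕ), MaxIdealIndependent I ∧ I.Infinite ∧ #I = κ}

/-- `N` is a proper ideal on `ω` containing all finite sets. -/
structure IsIdeal (N : Set (Set ℕ)) : Prop where
  fin : ∀ X : Set ℕ, X.Finite → X ∈ N
  down : ∀ X ∈ N, ∀ Y ⊆ X, Y ∈ N
  union : ∀ X ∈ N, ∀ Y ∈ N, X ∪ Y ∈ N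
  proper : Set.univ ∉ N

/-- The ideal `N` is generated by `G` together with the finite sets: `G ⊆ N` and every member of
`N` is almost contained in a finite union of members of `G`. -/
def Generates (G N : Set (Set ℕ)) : Prop :=
  G ⊆ N ∧ ∀ X ∈ N, ∃ F : Set (Set ℕ), F.Finite ∧ F ⊆ G ∧ (X \ ⋃₀ F).Finite

/-- `C` is a complete system of representatives of the atoms of `P(ω)/N`, and `P(ω)/N` is atomic:
each `A ∈ C` represents an atom, distinct members of `C` are disjoint modulo `N`, and every set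
`X ∉ N` contains a member of `C` modulo `N`. -/
structure CompleteAtoms (N C : Set (Set ℕ)) : Prop where
  notMem : ∀ A ∈ C, A ∉ N
  atom : ∀ A ∈ C, ∀ X ⊆ A, X ∈ N ∨ A \ X ∈ N
  disj : ∀ A ∈ C, ∀ B ∈ C, A ≠ B → A ∩ B ∈ N
  dense : ∀ X : Set ℕ, X ∉ N → ∃ A ∈ C, A \ X ∈ N

/-- `N` is a proper ideal on `ω` (containing the finite sets), generated by `G`, such that
`P(ω)/N` is atomic and `C` is a complete system of representatives of its atoms. -/
structure AtomicIdeal (N G C : Set (Set ℕ)) : Prop where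
  ideal : IsIdeal N
  gen : Generates G N
  atoms : CompleteAtoms N C

/-! ### An almost disjoint family of size continuum -/

/-- Code of the initial segment of length `n` of `x`. -/
def code (x : ℕ → Bool) (n : ℕ) : ℕ := Encodable.encode ((List.range n).map x)

theorem code_eq {x y : ℕ → Bool} {n m : ℕ} (h : code x n = code y m) :
    n = m ∧ ∀ k < n, x k = y k := by
  have h1 : (List.range n).map x = (List.range m).map y := Encodable.encode_injective h
  have h2 : n = m := by simpa using congrArg List.length h1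
  subst h2
  refine ⟨rfl, fun k hk => ?_⟩
  have h3 := congrArg (fun l => l[k]?) h1
  simpa [hk] using h3

/-- The branch through `x`. -/
def br (x : ℕ → Bool) : Set ℕ := range (code x)

theorem br_infinite (x : ℕ → Bool) : (br x).Infinite :=
  infinite_range_of_injective fun _ _ h => (code_eq h).1

theorem br_inter {x y : ℕ → Bool} (h : x ≠ y) : (br x ∩ br y).Finite := by
  obtain ⟨k, hk⟩ := Function.ne_iff.mp h
  refine ((finite_le_nat k).image (code x)).subset ?_
  rintro _ ⟨⟨n, rfl⟩, ⟨m, hm⟩⟩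
  obtain ⟨h1, h2⟩ := code_eq hm
  refine ⟨n, ?_, rfl⟩
  by_contra hn
  have hn' : k < m := by
    have : k < n := not_le.mp hn
    omega
  exact hk (h2 k hn').symm

/-! ### Basic facts about ideals -/

theorem IsIdeal.sUnion {N : Set (Set ℕ)} (hN : IsIdeal N) {F : Set (Set ℕ)} (hF : F.Finite)
    (h : F ⊆ N) : ⋃₀ F ∈ N := by
  induction F, hF using Set.Finite.induction_on with
  | empty => simpa using hN.fin ∅ finite_empty
  | @insert A F _ _ ih =>
    rw [sUnion_insert]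
    exact hN.union _ (h (mem_insert _ _)) _ (ih fun x hx => h (mem_insert_of_mem _ hx))

theorem IsIdeal.of_almost {N : Set (Set ℕ)} (hN : IsIdeal N) {X Y : Set ℕ} (hY : Y ∈ N)
    (h : (X \ Y).Finite) : X ∈ N :=
  hN.down _ (hN.union _ (hN.fin _ h) _ hY) _ fun x hx => by
    by_cases hxy : x ∈ Y
    · exact Or.inr hxy
    · exact Or.inl ⟨hx, hxy⟩

theorem IsIdeal.biUnion {N : Set (Set ℕ)} (hN : IsIdeal N) {S : Set ℕ} (hS : S.Finite)
    (f : ℕ → Set ℕ) (h : ∀ j ∈ S, f j ∈ N) : (⋃ j ∈ S, f j) ∈ N := by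
  have : (⋃ j ∈ S, f j) = ⋃₀ (f '' S) := by simp
  rw [this]
  apply hN.sUnion (hS.image f)
  rintro _ ⟨j, hj, rfl⟩
  exact h j hj

/-- A family of fewer than continuum many sets cannot catch all members of an almost disjoint
family of size continuum injectively. -/
theorem exists_ne_of_lt {C : Set (Set ℕ)} (hC : #C < 𝔠) (f : (ℕ → Bool) → Set ℕ)
    (hf : ∀ x, f x ∈ C) : ∃ x y, x ≠ y ∧ f x = f y := by
  by_contra hcon
  push Not at hcon
  have hinj : Function.Injective fun x => (⟨f x, hf x⟩ : C) := by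
    intro x y hxy
    by_contra hne
    exact hcon x y hne (congrArg Subtype.val hxy)
  have h1 := Cardinal.mk_le_of_injective hinj
  have h2 : #(ℕ → Bool) = 𝔠 := by simp
  rw [h2] at h1
  exact absurd hC (not_lt.mpr h1)

/-- An ideal whose quotient is atomic with fewer than continuum many atoms is not the union of a
strictly increasing countable chain of subideals. -/
theorem eq_of_chain {N C : Set (Set ℕ)} (hN : IsIdeal N) (hC : CompleteAtoms N C) (hc : #C < 𝔠)
    (M : ℕ → Set (Set ℕ)) (hmono : Monotone M) (hdown : ∀ m, ∀ X ∈ M m, ∀ Y ⊆ X, Y ∈ M m)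
    (hunion : ∀ m, ∀ X ∈ M m, ∀ Y ∈ M m, X ∪ Y ∈ M m) (hempty : ∀ m, ∅ ∈ M m)
    (hM : N = ⋃ m, M m) : ∃ m, N = M m := by
  by_contra hcon
  push Not at hcon
  have hsub : ∀ m, M m ⊆ N := fun m => hM ▸ subset_iUnion M m
  have h1 : ∀ m, ∃ X ∈ N, X ∉ M m := by
    intro m
    by_contra h
    push Not at h
    exact hcon m (Subset.antisymm h (hsub m))
  choose X hXN hXM using h1
  have h2 : ∀ Y ∈ N, ∃ m, Y ∈ M m := by
    intro Y hY
    rw [hM] at hY
    exact mem_iUnion.mp hY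
  choose! l hl using h2
  -- the levels
  let m : ℕ → ℕ := fun n => Nat.rec 0 (fun _ k => max k (l (X k)) + 1) n
  have hm : ∀ n, m (n + 1) = max (m n) (l (X (m n))) + 1 := fun n => rfl
  have hmle : ∀ n, m n ≤ m (n + 1) := fun n => by rw [hm]; omega
  have hmm : Monotone m := monotone_nat_of_le_succ hmle
  have hge : ∀ n, n ≤ m n := by
    intro n
    induction n with
    | zero => exact Nat.zero_le _
    | succ n ih => rw [hm]; omega
  have hXm : ∀ i j, i < j → X (m i) ∈ M (m j) := by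
    intro i j hij
    have h3 : X (m i) ∈ M (m (i + 1)) := by
      refine hmono ?_ (hl (X (m i)) (hXN _))
      rw [hm]; omega
    exact hmono (hmm hij) h3
  let Y : ℕ → Set ℕ := fun j => X (m j) \ ⋃ i ∈ Iio j, X (m i)
  have hfinunion : ∀ j, ∀ n ≤ j, (⋃ i ∈ Iio n, X (m i)) ∈ M (m j) := by
    intro j n
    induction n with
    | zero => intro _; simpa using hempty (m j)
    | succ n ih =>
      intro hn
      have h3 : (⋃ i ∈ Iio (n + 1), X (m i)) = (⋃ i ∈ Iio n, X (m i)) ∪ X (m n) := by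
        ext x
        simp only [mem_iUnion, mem_Iio, mem_union]
        constructor
        · rintro ⟨i, hi, hx⟩
          rcases Nat.lt_succ_iff_lt_or_eq.mp hi with h | h
          · exact Or.inl ⟨i, h, hx⟩
          · exact Or.inr (h ▸ hx)
        · rintro (⟨i, hi, hx⟩ | hx)
          · exact ⟨i, by omega, hx⟩
          · exact ⟨n, by omega, hx⟩
      rw [h3]
      exact hunion _ _ (ih (by omega)) _ (hXm n j (by omega))
  have hY : ∀ j, Y j ∉ M (m j) := by
    intro j hj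
    apply hXM (m j)
    refine hdown _ _ (hunion _ _ hj _ (hfinunion j j le_rfl)) _ fun x hx => ?_
    by_cases hx' : x ∈ ⋃ i ∈ Iio j, X (m i)
    · exact Or.inr hx'
    · exact Or.inl ⟨hx, hx'⟩
  have hYN : ∀ j, Y j ∈ N := fun j => hN.down _ (hXN _) _ fun _ hx => hx.1
  have hYdisj : ∀ i j, i ≠ j → Disjoint (Y i) (Y j) := by
    have key : ∀ i j, i < j → Disjoint (Y i) (Y j) := by
      intro i j hij
      rw [Set.disjoint_left]
      intro x hxi hxj
      apply hxj.2
      exact mem_biUnion (show i ∈ Iio j from hij) hxi.1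
    intro i j hij
    rcases lt_or_gt_of_ne hij with h | h
    · exact key i j h
    · exact (key j i h).symm
  have hYS : ∀ S : Set ℕ, S.Infinite → (⋃ j ∈ S, Y j) ∉ N := by
    intro S hS hcon
    obtain ⟨j, hjS, hj⟩ := hS.exists_gt (l (⋃ j ∈ S, Y j))
    apply hY j
    refine hmono ?_ (hdown _ _ (hl _ hcon) _ (subset_biUnion_of_mem hjS))
    exact le_trans hj.le (hge j)
  have h3 : ∀ x : ℕ → Bool, ∃ A ∈ C, A \ (⋃ j ∈ br x, Y j) ∈ N :=
    fun x => hC.dense _ (hYS _ (br_infinite x))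
  choose A hAC hA using h3
  obtain ⟨x, y, hxy, hAxy⟩ := exists_ne_of_lt hc A hAC
  apply hC.notMem _ (hAC x)
  have h4 : (⋃ j ∈ br x ∩ br y, Y j) ∈ N := hN.biUnion (br_inter hxy) Y fun j _ => hYN j
  have h5 : A x \ (⋃ j ∈ br y, Y j) ∈ N := hAxy ▸ hA y
  refine hN.down _ (hN.union _ (hN.union _ (hA x) _ h5) _ h4) _ fun z hz => ?_
  by_cases h6 : z ∈ ⋃ j ∈ br x, Y j
  · by_cases h7 : z ∈ ⋃ j ∈ br y, Y j
    · right
      obtain ⟨i, hi, hzi⟩ := mem_iUnion₂.mp h6
      obtain ⟨j, hj, hzj⟩ := mem_iUnion₂.mp h7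
      have hij : i = j := by
        by_contra hne
        exact (Set.disjoint_left.mp (hYdisj i j hne)) hzi hzj
      subst hij
      exact mem_biUnion (show i ∈ br x ∩ br y from ⟨hi, hj⟩) hzi
    · exact Or.inl (Or.inr ⟨hz, h7⟩)
  · exact Or.inl (Or.inl ⟨hz, h6⟩)

/-! ### From ideals to maximal ideal independent families -/

/-- An ideal generated by at most `κ` sets with atomic quotient with exactly `κ` atoms yields a
maximal ideal independent family of cardinality `κ`. -/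
theorem exists_maximal {N G C : Set (Set ℕ)} (hN : IsIdeal N) (hG : Generates G N)
    (hC : CompleteAtoms N C) (hGC : #G ≤ #C) (hinf : ℵ₀ ≤ #C) :
    ∃ I : Set (Set ℕ), MaxIdealIndependent I ∧ I.Infinite ∧ #I = #C := by
  have h1 : #(G × Bool) ≤ #C := by
    rw [Cardinal.mk_prod, Cardinal.lift_uzero, Cardinal.lift_uzero]
    calc #G * #Bool ≤ #C * #C :=
          mul_le_mul' hGC ((Cardinal.lt_aleph0_of_finite Bool).le.trans hinf)
      _ = #C := Cardinal.mul_eq_self hinf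
  obtain ⟨e⟩ := Cardinal.le_def _ _ |>.mp h1
  -- the set attached to each representative
  let f : Set ℕ → Set ℕ := fun A => ⋃₀ {g | ∃ (hg : g ∈ G) (b : Bool), (e (⟨g, hg⟩, b) : Set ℕ) = A}
  have hf1 : ∀ g (hg : g ∈ G) (b : Bool), f (e (⟨g, hg⟩, b)) = g := by
    intro g hg b
    apply Subset.antisymm
    · apply sUnion_subset
      rintro g' ⟨hg', b', h⟩
      have h2 := e.injective (Subtype.ext h)
      have h3 : g' = g := congrArg (fun z : G × Bool => (z.1 : Set ℕ)) h2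
      exact h3.subset
    · exact subset_sUnion_of_mem ⟨hg, b, rfl⟩
  have hfN : ∀ A, f A ∈ N := by
    intro A
    by_cases h : ∃ g, ∃ (hg : g ∈ G) (b : Bool), (e (⟨g, hg⟩, b) : Set ℕ) = A
    · obtain ⟨g, hg, b, rfl⟩ := h
      rw [hf1]
      exact hG.1 hg
    · have : f A = ∅ := by
        simp only [f]
        rw [sUnion_eq_empty]
        intro g hg
        exact absurd ⟨g, hg⟩ h
      rw [this]
      exact hN.fin _ finite_empty
  let φ : Set ℕ → Set ℕ := fun A => A ∪ f A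
  have hcov : ∀ A ∈ C, ∀ F : Set (Set ℕ), F.Finite → F ⊆ φ '' C → φ A ∉ F →
      ∀ Z ∈ N, ¬ A ⊆ Z ∪ ⋃₀ F := by
    intro A hA F hF hFC hAF Z hZ hsub
    apply hC.notMem A hA
    have h2 : ∀ X ∈ F, A ∩ X ∈ N := by
      intro X hX
      obtain ⟨B, hB, rfl⟩ := hFC hX
      have hne : A ≠ B := by
        rintro rfl
        exact hAF hX
      exact hN.down _ (hN.union _ (hC.disj A hA B hB hne) _ (hfN B)) _ fun x hx =>
        hx.2.elim (fun h => Or.inl ⟨hx.1, h⟩) (fun h => Or.inr h)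
    have h3 : ⋃₀ ((fun X => A ∩ X) '' F) ∈ N := by
      apply hN.sUnion (hF.image _)
      rintro _ ⟨X, hX, rfl⟩
      exact h2 X hX
    refine hN.down _ (hN.union _ hZ _ h3) _ fun x hx => ?_
    rcases hsub hx with h | ⟨X, hX, hxX⟩
    · exact Or.inl h
    · exact Or.inr ⟨A ∩ X, ⟨X, hX, rfl⟩, hx, hxX⟩
  have hφinj : InjOn φ C := by
    intro A hA B hB hAB
    by_contra hne
    apply hC.notMem A hA
    refine hN.down _ (hN.union _ (hC.disj A hA B hB hne) _ (hfN B)) _ fun x hx => ?_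
    have : x ∈ φ B := hAB ▸ (Or.inl hx : x ∈ φ A)
    exact this.elim (fun h => Or.inl ⟨hx, h⟩) (fun h => Or.inr h)
  have hcard : #(φ '' C) = #C := Cardinal.mk_image_eq_of_injOn φ C hφinj
  have hgen : ∀ Z ∈ N, ∀ X : Set ℕ, ∃ F : Set (Set ℕ), F.Finite ∧ F ⊆ φ '' C ∧ X ∉ F ∧
      (Z \ ⋃₀ F).Finite := by
    intro Z hZ X
    obtain ⟨F, hF, hFG, hZF⟩ := hG.2 Z hZ
    have h2 : ∀ g ∈ F, ∃ A ∈ C, g ⊆ φ A ∧ φ A ≠ X := by
      intro g hg
      have hg' := hFG hg
      have hne : (e (⟨g, hg'⟩, true) : Set ℕ) ≠ e (⟨g, hg'⟩, false) := by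
        intro h
        have := e.injective (Subtype.ext h)
        simp at this
      by_cases hX : φ (e (⟨g, hg'⟩, true)) = X
      · refine ⟨e (⟨g, hg'⟩, false), (e (⟨g, hg'⟩, false)).2, ?_, ?_⟩
        · intro x hx
          exact Or.inr (by rw [hf1]; exact hx)
        · intro h
          exact hne (hφinj (e (⟨g, hg'⟩, true)).2 (e (⟨g, hg'⟩, false)).2 (hX.trans h.symm))
      · refine ⟨e (⟨g, hg'⟩, true), (e (⟨g, hg'⟩, true)).2, ?_, hX⟩
        intro x hx
        exact Or.inr (by rw [hf1]; exact hx)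
    choose! a haC hga haX using h2
    refine ⟨(fun g => φ (a g)) '' F, hF.image _, ?_, ?_, ?_⟩
    · rintro _ ⟨g, hg, rfl⟩
      exact ⟨a g, haC g hg, rfl⟩
    · rintro ⟨g, hg, h⟩
      exact haX g hg h
    · refine hZF.subset fun x hx => ⟨hx.1, fun h => hx.2 ?_⟩
      obtain ⟨g, hg, hxg⟩ := h
      exact ⟨φ (a g), ⟨g, hg, rfl⟩, hga g hg hxg⟩
  refine ⟨φ '' C, ⟨⟨?_, ?_⟩, ?_⟩, ?_, hcard⟩
  · rintro _ ⟨A, hA, rfl⟩ hfin
    exact hC.notMem A hA (hN.fin _ (hfin.subset fun x hx => Or.inl hx))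
  · rintro _ ⟨A, hA, rfl⟩ F hF hFC hAF hfin
    exact hcov A hA F hF hFC hAF _ (hN.fin _ hfin) fun x hx => by
      by_cases h : x ∈ ⋃₀ F
      · exact Or.inr h
      · exact Or.inl ⟨Or.inl hx, h⟩
  · intro J hJ hsub
    apply Subset.antisymm _ hsub
    intro X hX
    by_contra hXC
    by_cases hXN : X ∈ N
    · obtain ⟨F, hF, hFC, hXF, hfin⟩ := hgen X hXN X
      exact hJ.2 X hX F hF (hFC.trans hsub) hXF hfin
    · obtain ⟨A, hA, hAX⟩ := hC.dense X hXN
      have hZ : φ A \ X ∈ N := hN.down _ (hN.union _ hAX _ (hfN A)) _ fun x hx =>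
        hx.1.elim (fun h => Or.inl ⟨h, hx.2⟩) (fun h => Or.inr h)
      obtain ⟨F, hF, hFC, hAF, hfin⟩ := hgen _ hZ (φ A)
      refine hJ.2 (φ A) (hsub ⟨A, hA, rfl⟩) (insert X F) (hF.insert X) ?_ ?_ ?_
      · exact insert_subset hX (hFC.trans hsub)
      · rintro (h | h)
        · exact hXC (h ▸ ⟨A, hA, rfl⟩)
        · exact hAF h
      · refine hfin.subset fun x hx => ?_
        rw [sUnion_insert] at hx
        exact ⟨⟨hx.1, fun h => hx.2 (Or.inl h)⟩, fun h => hx.2 (Or.inr h)⟩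
  · rw [← Set.infinite_coe_iff, Cardinal.infinite_iff, hcard]
    exact hinf

/-! ### From maximal ideal independent families to ideals -/

/-- The sets almost covered by finitely many members of `J`. -/
def spanOf (J : Set (Set ℕ)) : Set (Set ℕ) :=
  {X | ∃ F : Set (Set ℕ), F.Finite ∧ F ⊆ J ∧ (X \ ⋃₀ F).Finite}

theorem spanOf_mono {J K : Set (Set ℕ)} (h : J ⊆ K) : spanOf J ⊆ spanOf K := by
  rintro X ⟨F, hF, hFJ, hX⟩
  exact ⟨F, hF, hFJ.trans h, hX⟩

theorem spanOf_down {J : Set (Set ℕ)} {X Y : Set ℕ} (hX : X ∈ spanOf J) (h : Y ⊆ X) :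
    Y ∈ spanOf J := by
  obtain ⟨F, hF, hFJ, hX⟩ := hX
  exact ⟨F, hF, hFJ, hX.subset fun x hx => ⟨h hx.1, hx.2⟩⟩

theorem spanOf_union {J : Set (Set ℕ)} {X Y : Set ℕ} (hX : X ∈ spanOf J) (hY : Y ∈ spanOf J) :
    X ∪ Y ∈ spanOf J := by
  obtain ⟨F, hF, hFJ, hX⟩ := hX
  obtain ⟨F', hF', hFJ', hY⟩ := hY
  refine ⟨F ∪ F', hF.union hF', union_subset hFJ hFJ', (hX.union hY).subset fun x hx => ?_⟩
  rw [sUnion_union] at hx
  rcases hx.1 with h | h
  · exact Or.inl ⟨h, fun h' => hx.2 (Or.inl h')⟩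
  · exact Or.inr ⟨h, fun h' => hx.2 (Or.inr h')⟩

theorem spanOf_fin {J : Set (Set ℕ)} {X : Set ℕ} (hX : X.Finite) : X ∈ spanOf J :=
  ⟨∅, finite_empty, empty_subset _, hX.subset fun _ hx => hx.1⟩

theorem mem_spanOf {J : Set (Set ℕ)} {X : Set ℕ} (hX : X ∈ J) : X ∈ spanOf J :=
  ⟨{X}, finite_singleton X, singleton_subset_iff.mpr hX, by simp⟩

theorem spanOf_sUnion {J F : Set (Set ℕ)} (hF : F.Finite) (h : F ⊆ spanOf J) :
    ⋃₀ F ∈ spanOf J := by
  induction F, hF using Set.Finite.induction_on with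
  | empty => simpa using spanOf_fin finite_empty
  | @insert A F _ _ ih =>
    rw [sUnion_insert]
    exact spanOf_union (h (mem_insert _ _)) (ih fun x hx => h (mem_insert_of_mem _ hx))

theorem spanOf_almost {J F : Set (Set ℕ)} {X : Set ℕ} (hF : F.Finite) (h : F ⊆ spanOf J)
    (hX : (X \ ⋃₀ F).Finite) : X ∈ spanOf J :=
  spanOf_down (spanOf_union (spanOf_fin hX) (spanOf_sUnion hF h)) fun x hx => by
    by_cases hx' : x ∈ ⋃₀ F
    · exact Or.inr hx'
    · exact Or.inl ⟨hx, hx'⟩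

/-- Pairwise intersections of distinct members. -/
def pairs (J : Set (Set ℕ)) : Set (Set ℕ) := {X | ∃ A ∈ J, ∃ B ∈ J, A ≠ B ∧ X = A ∩ B}

/-- The ideal attached to a family `I`. -/
def nul (I : Set (Set ℕ)) : Set (Set ℕ) := {X | ∀ A ∈ I, X ∈ spanOf (I \ {A})}

section family

variable {I : Set (Set ℕ)}

theorem notMem_spanOf (hI : IdealIndependent I) {A : Set ℕ} (hA : A ∈ I) :
    A ∉ spanOf (I \ {A}) := by
  rintro ⟨F, hF, hFI, hfin⟩
  exact hI.2 A hA F hF (fun x hx => (hFI hx).1) (fun h => (hFI h).2 rfl) hfin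

theorem mem_nul_of_subset {A Y : Set ℕ} (hA : A ∈ I) (hY : Y ⊆ A)
    (h : Y ∈ spanOf (I \ {A})) : Y ∈ nul I := by
  intro B hB
  by_cases hAB : B = A
  · rw [hAB]; exact h
  · exact spanOf_down (mem_spanOf ⟨hA, fun h' => hAB (mem_singleton_iff.mp h').symm⟩) hY

theorem inter_mem_nul {A B : Set ℕ} (hA : A ∈ I) (hB : B ∈ I) (h : A ≠ B) : A ∩ B ∈ nul I :=
  mem_nul_of_subset hA inter_subset_left
    (spanOf_down (mem_spanOf ⟨hB, fun h' => h (mem_singleton_iff.mp h').symm⟩) inter_subset_right)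

theorem nul_subset (hne : I.Nonempty) : nul I ⊆ spanOf (pairs I) := by
  obtain ⟨A₀, hA₀⟩ := hne
  intro X hX
  obtain ⟨F, hF, hFI, hXF⟩ := spanOf_mono (sdiff_subset : I \ {A₀} ⊆ I) (hX A₀ hA₀)
  have h1 : (fun A => X ∩ A) '' F ⊆ spanOf (pairs I) := by
    rintro _ ⟨A, hA, rfl⟩
    obtain ⟨F', hF', hFI', hXF'⟩ := hX A (hFI hA)
    have h2 : (fun B => A ∩ B) '' F' ⊆ spanOf (pairs I) := by
      rintro _ ⟨B, hB, rfl⟩
      apply mem_spanOf
      exact ⟨A, hFI hA, B, (hFI' hB).1, fun h => (hFI' hB).2 h.symm, rfl⟩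
    refine spanOf_almost (hF'.image _) h2 (hXF'.subset fun x hx => ⟨hx.1.1, ?_⟩)
    rintro ⟨B, hB, hxB⟩
    exact hx.2 ⟨A ∩ B, ⟨B, hB, rfl⟩, hx.1.2, hxB⟩
  refine spanOf_almost (hF.image _) h1 (hXF.subset fun x hx => ⟨hx.1, ?_⟩)
  rintro ⟨A, hA, hxA⟩
  exact hx.2 ⟨X ∩ A, ⟨A, hA, rfl⟩, hx.1, hxA⟩

theorem pairs_subset_nul : pairs I ⊆ nul I := by
  rintro _ ⟨A, hA, B, hB, hAB, rfl⟩
  exact inter_mem_nul hA hB hAB

theorem spanOf_pairs_subset : spanOf (pairs I) ⊆ nul I := by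
  rintro X ⟨F, hF, hFI, hX⟩ A hA
  exact spanOf_almost hF (fun Y hY => pairs_subset_nul (hFI hY) A hA) hX

theorem nul_eq (hne : I.Nonempty) : nul I = spanOf (pairs I) :=
  Subset.antisymm (nul_subset hne) spanOf_pairs_subset

theorem nul_union {X Y : Set ℕ} (hX : X ∈ nul I) (hY : Y ∈ nul I) : X ∪ Y ∈ nul I :=
  fun A hA => spanOf_union (hX A hA) (hY A hA)

theorem nul_down {X Y : Set ℕ} (hX : X ∈ nul I) (h : Y ⊆ X) : Y ∈ nul I :=
  fun A hA => spanOf_down (hX A hA) h

theorem nul_fin {X : Set ℕ} (hX : X.Finite) : X ∈ nul I := fun _ _ => spanOf_fin hX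

theorem nul_sUnion {F : Set (Set ℕ)} (hF : F.Finite) (h : F ⊆ nul I) : ⋃₀ F ∈ nul I :=
  fun A hA => spanOf_sUnion hF fun _ hX => h hX A hA

theorem notMem_nul (hI : IdealIndependent I) {A : Set ℕ} (hA : A ∈ I) : A ∉ nul I :=
  fun h => notMem_spanOf hI hA (h A hA)

/-- Maximality: a set not covered by the family contains a member modulo `nul I`. -/
theorem exists_captured (hI : MaxIdealIndependent I) {X : Set ℕ} (hX : X ∉ spanOf I) :
    ∃ A ∈ I, A \ X ∈ nul I := by
  by_contra hcon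
  push Not at hcon
  have h1 : ∀ A ∈ I, A \ X ∉ spanOf (I \ {A}) := fun A hA h =>
    hcon A hA (mem_nul_of_subset hA (fun x hx => hx.1) h)
  have hXI : X ∉ I := fun h => hX (mem_spanOf h)
  have h2 : IdealIndependent (insert X I) := by
    refine ⟨?_, ?_⟩
    · rintro A (rfl | hA)
      · intro h
        exact hX (spanOf_fin h)
      · exact hI.1.1 A hA
    · rintro A (rfl | hA) F hF hFI hAF hfin
      · apply hX
        refine ⟨F, hF, fun B hB => ?_, hfin⟩
        rcases hFI hB with h | h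
        · exact absurd (h ▸ hB) hAF
        · exact h
      · apply h1 A hA
        refine ⟨F \ {X}, hF.subset (fun x hx => hx.1), fun B hB => ?_, ?_⟩
        · rcases hFI hB.1 with h | h
          · exact absurd h hB.2
          · exact ⟨h, fun h' => hAF (mem_singleton_iff.mp h' ▸ hB.1)⟩
        · refine hfin.subset fun x hx => ⟨hx.1.1, ?_⟩
          rintro ⟨B, hB, hxB⟩
          by_cases hBX : B = X
          · exact hx.1.2 (hBX ▸ hxB)
          · exact hx.2 ⟨B, ⟨hB, hBX⟩, hxB⟩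
  exact hXI ((hI.2 _ h2 (subset_insert X I)) ▸ mem_insert X I)

/-- The members of the family which are not atoms modulo `nul I`. -/
def bad (I : Set (Set ℕ)) : Set (Set ℕ) := {A ∈ I | ∃ X ⊆ A, X ∉ nul I ∧ A \ X ∉ nul I}

/-- All but finitely many members of a small maximal ideal independent family are atoms. -/
theorem bad_finite (hI : MaxIdealIndependent I) (hc : #I < 𝔠) : (bad I).Finite := by
  by_contra hinf
  have hinf : (bad I).Infinite := hinf
  let B : ℕ → Set ℕ := fun n => (hinf.natEmbedding _ n : Set ℕ)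
  have hBbad : ∀ n, B n ∈ bad I := fun n => (hinf.natEmbedding _ n).2
  have hBinj : Function.Injective B := fun m n h =>
    (hinf.natEmbedding _).injective (Subtype.ext h)
  have hBI : ∀ n, B n ∈ I := fun n => (hBbad n).1
  choose B0 hB0 hB0n hB1n using fun n => (hBbad n).2
  let X : ℕ → Set ℕ := fun j => B0 j \ ⋃ k ∈ Iio j, B k
  have hlow : ∀ j, ∀ A ∈ I, (∀ k < j, B k ≠ A) → (⋃ k ∈ Iio j, B k) ∈ spanOf (I \ {A}) := by
    intro j A hA hk
    have h1 : (⋃ k ∈ Iio j, B k) = ⋃₀ (B '' Iio j) := by simp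
    rw [h1]
    apply spanOf_sUnion ((finite_Iio j).image B)
    rintro _ ⟨k, hkj, rfl⟩
    exact mem_spanOf ⟨hBI k, fun h => hk k hkj h⟩
  -- positivity of unions over infinite index sets
  have hpos : ∀ S : Set ℕ, S.Infinite → (⋃ j ∈ S, X j) ∉ spanOf I := by
    rintro S hS ⟨F, hF, hFI, hfin⟩
    have h1 : (S \ B ⁻¹' F).Infinite := hS.sdiff (hF.preimage hBinj.injOn)
    obtain ⟨j, hjS, hjF⟩ := h1.nonempty
    apply hB0n j
    apply mem_nul_of_subset (hBI j) (hB0 j)
    have h2 : X j ∈ spanOf (I \ {B j}) := by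
      refine ⟨F, hF, fun A hA => ⟨hFI hA, fun h => hjF (show B j ∈ F from mem_singleton_iff.mp h ▸ hA)⟩, ?_⟩
      exact hfin.subset fun x hx => ⟨mem_biUnion hjS hx.1, hx.2⟩
    refine spanOf_down (spanOf_union h2 (hlow j (B j) (hBI j) ?_)) fun x hx => ?_
    · intro k hk h
      exact absurd (hBinj h) hk.ne
    · by_cases h : x ∈ ⋃ k ∈ Iio j, B k
      · exact Or.inr h
      · exact Or.inl ⟨hx, h⟩
  have h3 : ∀ x : ℕ → Bool, ∃ A ∈ I, A \ (⋃ j ∈ br x, X j) ∈ nul I :=
    fun x => exists_captured hI (hpos _ (br_infinite x))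
  choose A hAI hA using h3
  obtain ⟨x, y, hxy, hAxy⟩ := exists_ne_of_lt hc A hAI
  have hXdisj : ∀ i j, ∀ z, z ∈ X i → z ∈ X j → i = j := by
    intro i j z hzi hzj
    rcases lt_trichotomy i j with h | h | h
    · exact absurd (mem_biUnion (show i ∈ Iio j from h) (hB0 i hzi.1)) hzj.2
    · exact h
    · exact absurd (mem_biUnion (show j ∈ Iio i from h) (hB0 j hzj.1)) hzi.2
  -- the captured member is one of the `B i`
  by_cases hAB : ∃ i, B i = A x
  · obtain ⟨i, hi⟩ := hAB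
    apply hB1n i
    apply mem_nul_of_subset (hBI i) (fun z hz => hz.1)
    have h4 : B i \ (⋃ j ∈ br x, X j) ∈ spanOf (I \ {B i}) := by
      have := hA x
      rw [← hi] at this
      exact this (B i) (hBI i)
    refine spanOf_down (spanOf_union h4 (hlow i (B i) (hBI i) ?_)) fun z hz => ?_
    · intro k hk h
      exact absurd (hBinj h) hk.ne
    · by_cases h : z ∈ ⋃ k ∈ Iio i, B k
      · exact Or.inr h
      · left
        refine ⟨hz.1, fun hz' => ?_⟩
        obtain ⟨j, hj, hzj⟩ := mem_iUnion₂.mp hz'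
        rcases lt_trichotomy j i with hji | hji | hji
        · exact h (mem_biUnion (show j ∈ Iio i from hji) (hB0 j hzj.1))
        · subst hji
          exact hz.2 hzj.1
        · exact hzj.2 (mem_biUnion (show i ∈ Iio j from hji) hz.1)
  · push Not at hAB
    apply notMem_spanOf hI.1 (hAI x)
    have h4 : (⋃ j ∈ br x ∩ br y, X j) ∈ spanOf (I \ {A x}) := by
      have h5 : (⋃ j ∈ br x ∩ br y, X j) = ⋃₀ (X '' (br x ∩ br y)) := by simp
      rw [h5]
      apply spanOf_sUnion ((br_inter hxy).image X)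
      rintro _ ⟨j, -, rfl⟩
      exact spanOf_down (mem_spanOf ⟨hBI j, fun h => hAB j h⟩) fun z hz => hB0 j hz.1
    have h5 : A x \ (⋃ j ∈ br y, X j) ∈ nul I := hAxy ▸ hA y
    refine spanOf_down (spanOf_union (spanOf_union (hA x _ (hAI x)) (h5 _ (hAI x))) h4)
      fun z hz => ?_
    by_cases h6 : z ∈ ⋃ j ∈ br x, X j
    · by_cases h7 : z ∈ ⋃ j ∈ br y, X j
      · right
        obtain ⟨i, hi, hzi⟩ := mem_iUnion₂.mp h6
        obtain ⟨j, hj, hzj⟩ := mem_iUnion₂.mp h7
        have hij : i = j := hXdisj i j z hzi hzj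
        subst hij
        exact mem_biUnion (show i ∈ br x ∩ br y from ⟨hi, hj⟩) hzi
      · exact Or.inl (Or.inr ⟨hz, h7⟩)
    · exact Or.inl (Or.inl ⟨hz, h6⟩)

/-- The ideal on `ω` attached to a small maximal ideal independent family. -/
def idl (I : Set (Set ℕ)) : Set (Set ℕ) := {X | X \ ⋃₀ bad I ∈ nul I}

theorem nul_subset_idl : nul I ⊆ idl I := fun _ hX => nul_down hX fun _ hx => hx.1

theorem inter_bad (hb : (bad I).Finite) {A : Set ℕ} (hA : A ∈ I \ bad I) :
    A ∩ ⋃₀ bad I ∈ nul I := by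
  have h1 : A ∩ ⋃₀ bad I = ⋃₀ ((fun B => A ∩ B) '' bad I) := by
    ext x
    constructor
    · rintro ⟨hx, B, hB, hxB⟩
      exact ⟨A ∩ B, ⟨B, hB, rfl⟩, hx, hxB⟩
    · rintro ⟨_, ⟨B, hB, rfl⟩, hx, hxB⟩
      exact ⟨hx, B, hB, hxB⟩
  rw [h1]
  apply nul_sUnion (hb.image _)
  rintro _ ⟨B, hB, rfl⟩
  exact inter_mem_nul hA.1 hB.1 fun h => hA.2 (h ▸ hB)

theorem notMem_idl (hI : IdealIndependent I) (hb : (bad I).Finite) {A : Set ℕ}
    (hA : A ∈ I \ bad I) : A ∉ idl I := by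
  intro h
  apply notMem_nul hI hA.1
  refine nul_down (nul_union h (inter_bad hb hA)) fun x hx => ?_
  by_cases h : x ∈ ⋃₀ bad I
  · exact Or.inr ⟨hx, h⟩
  · exact Or.inl ⟨hx, h⟩

theorem isIdeal_idl (hI : IdealIndependent I) (hb : (bad I).Finite) (hinf : I.Infinite) :
    IsIdeal (idl I) where
  fin X hX := nul_fin (hX.subset fun x hx => hx.1)
  down X hX Y hY := nul_down hX fun x hx => ⟨hY hx.1, hx.2⟩
  union X hX Y hY := by
    have : (X ∪ Y) \ ⋃₀ bad I = (X \ ⋃₀ bad I) ∪ (Y \ ⋃₀ bad I) := union_sdiff_distrib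
    change (X ∪ Y) \ ⋃₀ bad I ∈ nul I
    rw [this]
    exact nul_union hX hY
  proper := by
    intro h
    obtain ⟨A, hA⟩ := (hinf.sdiff hb).nonempty
    exact notMem_idl hI hb hA (nul_down h fun x hx => ⟨mem_univ _, hx.2⟩)

theorem completeAtoms_idl (hI : MaxIdealIndependent I) (hb : (bad I).Finite) :
    CompleteAtoms (idl I) (I \ bad I) where
  notMem A hA := notMem_idl hI.1 hb hA
  atom A hA X hX := by
    by_contra hcon
    push Not at hcon
    exact hA.2 ⟨hA.1, X, hX, fun h => hcon.1 (nul_subset_idl h),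
      fun h => hcon.2 (nul_subset_idl h)⟩
  disj A hA B hB hAB := nul_subset_idl (inter_mem_nul hA.1 hB.1 hAB)
  dense X hX := by
    have key : ∃ A ∈ I \ bad I, A \ (X \ ⋃₀ bad I) ∈ nul I := by
      by_cases h : X \ ⋃₀ bad I ∈ spanOf I
      · obtain ⟨F, hF, hFI, hfin⟩ := h
        have h1 : ∃ A ∈ F, (X \ ⋃₀ bad I) ∩ A ∉ nul I := by
          by_contra hcon
          push Not at hcon
          apply hX
          have h2 : ⋃₀ ((fun A => (X \ ⋃₀ bad I) ∩ A) '' F) ∈ nul I := by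
            apply nul_sUnion (hF.image _)
            rintro _ ⟨A, hA, rfl⟩
            exact hcon A hA
          refine nul_down (nul_union (nul_fin hfin) h2) fun x hx => ?_
          by_cases hxF : x ∈ ⋃₀ F
          · obtain ⟨A, hA, hxA⟩ := hxF
            exact Or.inr ⟨_, ⟨A, hA, rfl⟩, hx, hxA⟩
          · exact Or.inl ⟨hx, hxF⟩
        obtain ⟨A, hAF, hA⟩ := h1
        have hAbad : A ∉ bad I := by
          intro h
          apply hA
          apply nul_fin
          convert finite_empty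
          rw [eq_empty_iff_forall_notMem]
          rintro x ⟨hx, hxA⟩
          exact hx.2 ⟨A, h, hxA⟩
        refine ⟨A, ⟨hFI hAF, hAbad⟩, ?_⟩
        by_contra hcon
        refine hAbad ⟨hFI hAF, (X \ ⋃₀ bad I) ∩ A, inter_subset_right, hA, fun h => hcon ?_⟩
        refine nul_down h fun x hx => ⟨hx.1, fun h' => hx.2 h'.1⟩
      · obtain ⟨A, hA, hAX⟩ := exists_captured hI h
        refine ⟨A, ⟨hA, fun hAb => ?_⟩, hAX⟩
        apply notMem_nul hI.1 hA
        refine nul_down hAX fun x hx => ⟨hx, fun h' => h'.2 ⟨A, hAb, hx⟩⟩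
    obtain ⟨A, hA, h⟩ := key
    refine ⟨A, hA, nul_subset_idl (nul_down h fun x hx => ⟨hx.1, fun h' => hx.2 h'.1⟩)⟩

end family

/-! ### Generators -/

theorem mk_pairs_le (J : Set (Set ℕ)) : #(pairs J) ≤ #J * #J := by
  have h1 : pairs J ⊆ range (fun p : J × J => (p.1 : Set ℕ) ∩ p.2) := by
    rintro _ ⟨A, hA, B, hB, -, rfl⟩
    exact ⟨(⟨A, hA⟩, ⟨B, hB⟩), rfl⟩
  calc #(pairs J) ≤ #(range (fun p : J × J => (p.1 : Set ℕ) ∩ p.2)) := mk_le_mk_of_subset h1
    _ ≤ #(J × J) := mk_range_le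
    _ = #J * #J := by rw [Cardinal.mk_prod, Cardinal.lift_id]

theorem generates_idl {I J : Set (Set ℕ)} (hJ : pairs J ⊆ nul I)
    (h : ∀ X ∈ idl I, X \ ⋃₀ bad I ∈ spanOf (pairs J)) :
    Generates (insert (⋃₀ bad I) (pairs J)) (idl I) := by
  refine ⟨?_, ?_⟩
  · rintro X (rfl | hX)
    · change ⋃₀ bad I \ ⋃₀ bad I ∈ nul I
      rw [Set.sdiff_self]
      exact nul_fin finite_empty
    · exact nul_subset_idl (hJ hX)
  · intro X hX
    obtain ⟨F, hF, hFJ, hfin⟩ := h X hX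
    refine ⟨insert (⋃₀ bad I) F, hF.insert _, insert_subset_insert hFJ, ?_⟩
    refine hfin.subset fun x hx => ?_
    rw [sUnion_insert] at hx
    exact ⟨⟨hx.1, fun h' => hx.2 (Or.inl h')⟩, fun h' => hx.2 (Or.inr h')⟩

theorem mk_diff_bad {I : Set (Set ℕ)} (hb : (bad I).Finite) (hinf : I.Infinite) :
    #(I \ bad I : Set (Set ℕ)) = #I := by
  have h0 : ℵ₀ ≤ #I := Cardinal.infinite_iff.mp (Set.infinite_coe_iff.mpr hinf)
  have h1 : #(bad I) < #I := lt_of_lt_of_le (Cardinal.lt_aleph0_iff_set_finite.mpr hb) h0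
  have h2 : bad I ⊆ I := fun A hA => hA.1
  apply le_antisymm (mk_le_mk_of_subset fun A hA => hA.1)
  by_contra hcon
  push Not at hcon
  have h3 : #I ≤ #(I \ bad I : Set (Set ℕ)) + #(bad I) := by
    have : I = (I \ bad I) ∪ bad I := (Set.sdiff_union_of_subset h2).symm
    conv_lhs => rw [this]
    exact mk_union_le _ _
  exact absurd h3 (not_le.mpr (Cardinal.add_lt_of_lt h0 hcon h1))

/-- First half of the characterization. -/
theorem exists_ideal {I : Set (Set ℕ)} (hI : MaxIdealIndependent I) (hinf : I.Infinite)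
    (hc : #I < 𝔠) : ∃ N G C : Set (Set ℕ), IsIdeal N ∧ Generates G N ∧ CompleteAtoms N C ∧
      #G ≤ #I ∧ #C = #I := by
  have hb := bad_finite hI hc
  have h0 : ℵ₀ ≤ #I := Cardinal.infinite_iff.mp (Set.infinite_coe_iff.mpr hinf)
  refine ⟨idl I, insert (⋃₀ bad I) (pairs I), I \ bad I, isIdeal_idl hI.1 hb hinf,
    generates_idl pairs_subset_nul fun X hX => nul_subset hinf.nonempty hX,
    completeAtoms_idl hI hb, ?_, mk_diff_bad hb hinf⟩
  calc #(insert (⋃₀ bad I) (pairs I) : Set (Set ℕ)) ≤ #(pairs I) + 1 := mk_insert_le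
    _ ≤ #I + #I := add_le_add ((mk_pairs_le I).trans (Cardinal.mul_eq_self h0).le)
        (Cardinal.one_le_aleph0.trans h0)
    _ = #I := Cardinal.add_eq_self h0

/-- A set whose cardinality has countable cofinality is an increasing union of a sequence of
subsets of smaller cardinality. -/
theorem exists_chain (I : Set (Set ℕ)) (hcof : (#I).ord.cof = ℵ₀) :
    ∃ J : ℕ → Set (Set ℕ), Monotone J ∧ I = (⋃ m, J m) ∧ ∀ m, #(J m) < #I := by
  have h0 : ℵ₀ ≤ #I := hcof ▸ Ordinal.cof_ord_le _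
  have h1 : #I = #((#I).ord.ToType) := by rw [Cardinal.mk_ord_toType]
  obtain ⟨e⟩ := Cardinal.eq.mp h1
  obtain ⟨s, hs, hs'⟩ := Order.exists_cof_eq (α := (#I).ord.ToType)
  rw [Ordinal.cof_toType, hcof] at hs'
  have hsne : s.Nonempty := by
    rw [← Set.nonempty_coe_sort, ← Cardinal.mk_ne_zero_iff, hs']
    exact Cardinal.aleph0_ne_zero
  have hsc : s.Countable := by
    rw [← Cardinal.le_aleph0_iff_set_countable, hs']
  obtain ⟨f, hf⟩ := hsc.exists_eq_range hsne
  have hIic : ∀ t : (#I).ord.ToType, #(Iic t) < #I := by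
    intro t
    have h2 : Iic t = insert t (Iio t) := by
      ext x
      simp [le_iff_eq_or_lt]
    rw [h2]
    refine lt_of_le_of_lt mk_insert_le (Cardinal.add_lt_of_lt h0 ?_ ?_)
    · have := Cardinal.mk_Iio_lt t (by rw [Cardinal.mk_ord_toType, Ordinal.type_toType])
      rwa [Cardinal.mk_ord_toType] at this
    · exact lt_of_lt_of_le Cardinal.one_lt_aleph0 h0
  let K : ℕ → Set (#I).ord.ToType := fun m => ⋃ i ∈ Iic m, Iic (f i)
  have hK : ∀ m, #(K m) < #I := by
    intro m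
    induction m with
    | zero =>
      have : K 0 = Iic (f 0) := by simp [K]
      rw [this]
      exact hIic _
    | succ m ih =>
      have : K (m + 1) = K m ∪ Iic (f (m + 1)) := by
        ext x
        simp only [K, mem_iUnion, mem_Iic, mem_union]
        constructor
        · rintro ⟨i, hi, hx⟩
          rcases Nat.le_succ_iff.mp hi with h | h
          · exact Or.inl ⟨i, h, hx⟩
          · subst h
            exact Or.inr hx
        · rintro (⟨i, hi, hx⟩ | hx)
          · exact ⟨i, by omega, hx⟩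
          · exact ⟨m + 1, le_rfl, hx⟩
      rw [this]
      exact lt_of_le_of_lt (mk_union_le _ _) (Cardinal.add_lt_of_lt h0 ih (hIic _))
  refine ⟨fun m => {A | ∃ hA : A ∈ I, e ⟨A, hA⟩ ∈ K m}, ?_, ?_, ?_⟩
  · rintro m n hmn A ⟨hA, h⟩
    refine ⟨hA, ?_⟩
    obtain ⟨i, hi, h⟩ := mem_iUnion₂.mp h
    exact mem_biUnion (show i ∈ Iic n from le_trans hi hmn) h
  · ext A
    rw [mem_iUnion]
    constructor
    · intro hA
      obtain ⟨t, ht, hle⟩ := hs (e ⟨A, hA⟩)
      rw [hf] at ht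
      obtain ⟨m, rfl⟩ := ht
      exact ⟨m, hA, mem_biUnion (mem_Iic.mpr (le_refl m)) hle⟩
    · rintro ⟨m, hA, -⟩
      exact hA
  · intro m
    refine lt_of_le_of_lt ?_ (hK m)
    refine Cardinal.mk_le_of_injective (f := fun A => ⟨e ⟨A.1, A.2.choose⟩, A.2.choose_spec⟩) ?_
    intro A B hAB
    have h2 : e ⟨A.1, A.2.choose⟩ = e ⟨B.1, B.2.choose⟩ := congrArg Subtype.val hAB
    have h3 := e.injective h2
    exact Subtype.ext (congrArg (fun z : I => (z : Set ℕ)) h3)

/-- Countable cofinality: fewer generators than atoms. -/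
theorem exists_ideal_lt {I : Set (Set ℕ)} (hI : MaxIdealIndependent I) (hinf : I.Infinite)
    (hc : #I < 𝔠) (hcof : (#I).ord.cof = ℵ₀) :
    ∃ N G C : Set (Set ℕ), IsIdeal N ∧ Generates G N ∧ CompleteAtoms N C ∧
      #G < #I ∧ #C = #I := by
  have hb := bad_finite hI hc
  have h0 : ℵ₀ ≤ #I := Cardinal.infinite_iff.mp (Set.infinite_coe_iff.mpr hinf)
  obtain ⟨J, hJmono, hJ, hJlt⟩ := exists_chain I hcof
  let M : ℕ → Set (Set ℕ) := fun m => {X | X \ ⋃₀ bad I ∈ spanOf (pairs (J m))}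
  have hJI : ∀ m, J m ⊆ I := fun m A hA => by
    rw [hJ]
    exact mem_iUnion.mpr ⟨m, hA⟩
  have hpmono : ∀ m n, m ≤ n → pairs (J m) ⊆ pairs (J n) := by
    rintro m n hmn _ ⟨A, hA, B, hB, hAB, rfl⟩
    exact ⟨A, hJmono hmn hA, B, hJmono hmn hB, hAB, rfl⟩
  have hpI : ∀ m, pairs (J m) ⊆ pairs I := by
    rintro m _ ⟨A, hA, B, hB, hAB, rfl⟩
    exact ⟨A, hJI m hA, B, hJI m hB, hAB, rfl⟩
  have hMN : idl I = ⋃ m, M m := by
    ext X
    rw [mem_iUnion]
    constructor
    · intro hX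
      obtain ⟨F, hF, hFI, hfin⟩ := nul_subset hinf.nonempty hX
      have h1 : ∀ Y ∈ pairs I, ∃ m, Y ∈ pairs (J m) := by
        rintro _ ⟨A, hA, B, hB, hAB, rfl⟩
        rw [hJ] at hA hB
        obtain ⟨m, hm⟩ := mem_iUnion.mp hA
        obtain ⟨n, hn⟩ := mem_iUnion.mp hB
        exact ⟨max m n, A, hJmono (le_max_left _ _) hm, B, hJmono (le_max_right _ _) hn, hAB, rfl⟩
      choose! l hl using h1
      obtain ⟨b, hb'⟩ := (hF.image l).bddAbove
      refine ⟨b, F, hF, fun Y hY => ?_, hfin⟩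
      exact hpmono _ _ (hb' ⟨Y, hY, rfl⟩) (hl Y (hFI hY))
    · rintro ⟨m, hm⟩
      exact spanOf_pairs_subset (spanOf_mono (hpI m) hm)
  obtain ⟨m, hm⟩ := eq_of_chain (isIdeal_idl hI.1 hb hinf) (completeAtoms_idl hI hb)
    ((mk_diff_bad hb hinf).trans_lt hc) M
    (fun m n hmn X hX => spanOf_mono (hpmono m n hmn) hX)
    (fun m X hX Y hY => spanOf_down hX fun x hx => ⟨hY hx.1, hx.2⟩)
    (fun m X hX Y hY => by
      change (X ∪ Y) \ ⋃₀ bad I ∈ spanOf (pairs (J m))
      rw [union_sdiff_distrib]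
      exact spanOf_union hX hY)
    (fun m => spanOf_fin (finite_empty.subset fun x hx => hx.1)) hMN
  refine ⟨idl I, insert (⋃₀ bad I) (pairs (J m)), I \ bad I, isIdeal_idl hI.1 hb hinf,
    generates_idl ((hpI m).trans pairs_subset_nul) fun X hX => ?_,
    completeAtoms_idl hI hb, ?_, mk_diff_bad hb hinf⟩
  · rw [hm] at hX
    exact hX
  · refine lt_of_le_of_lt mk_insert_le (Cardinal.add_lt_of_lt h0 ?_ ?_)
    · exact lt_of_le_of_lt (mk_pairs_le _) (Cardinal.mul_lt_of_lt h0 (hJlt m) (hJlt m))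
    · exact lt_of_lt_of_le Cardinal.one_lt_aleph0 h0

theorem smm_mem {κ : Cardinal.{0}} (h : smm = κ) (hκ : κ ≠ 0) :
    ∃ I : Set (Set ℕ), MaxIdealIndependent I ∧ I.Infinite ∧ #I = κ := by
  have hne : {κ | ∃ I : Set (Set ℕ), MaxIdealIndependent I ∧ I.Infinite ∧ #I = κ}.Nonempty := by
    by_contra hcon
    rw [Set.not_nonempty_iff_eq_empty] at hcon
    apply hκ
    rw [← h, smm, hcon]
    exact Cardinal.sInf_empty
  have := csInf_mem hne
  change smm ∈ _ at this
  rw [h] at this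
  exact this

/-- Restriction of an atomic ideal to a set. -/
theorem AtomicIdeal.restrict {N G C : Set (Set ℕ)} (h : AtomicIdeal N G C) (X : Set ℕ)
    (hX : X ∉ N) : AtomicIdeal {Y | Y ∩ X ∈ N} (insert Xᶜ G) {A ∈ C | A \ X ∈ N} where
  ideal :=
    { fin := fun Y hY => h.ideal.fin _ (hY.subset inter_subset_left)
      down := fun Y hY Z hZ => h.ideal.down _ hY _ (inter_subset_inter_left X hZ)
      union := fun Y hY Z hZ => by
        change (Y ∪ Z) ∩ X ∈ N
        rw [union_inter_distrib_right]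
        exact h.ideal.union _ hY _ hZ
      proper := fun hu => hX (h.ideal.down _ hu _ fun x hx => ⟨mem_univ x, hx⟩) }
  gen := by
    refine ⟨?_, ?_⟩
    · rintro Y (rfl | hY)
      · change Xᶜ ∩ X ∈ N
        rw [compl_inter_self]
        exact h.ideal.fin _ finite_empty
      · exact h.ideal.down _ (h.gen.1 hY) _ inter_subset_left
    · intro Y hY
      obtain ⟨F, hF, hFG, hfin⟩ := h.gen.2 _ hY
      refine ⟨insert Xᶜ F, hF.insert _, insert_subset_insert hFG, hfin.subset fun x hx => ?_⟩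
      rw [sUnion_insert] at hx
      exact ⟨⟨hx.1, by_contra fun h' => hx.2 (Or.inl h')⟩, fun h' => hx.2 (Or.inr h')⟩
  atoms :=
    { notMem := fun A hA hAN => h.atoms.notMem A hA.1
        (h.ideal.down _ (h.ideal.union _ hA.2 _ hAN) _ fun x hx => by
          by_cases hxX : x ∈ X
          · exact Or.inr ⟨hx, hxX⟩
          · exact Or.inl ⟨hx, hxX⟩)
      atom := fun A hA Y hY => (h.atoms.atom A hA.1 Y hY).imp
        (fun h' => h.ideal.down _ h' _ inter_subset_left)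
        (fun h' => h.ideal.down _ h' _ inter_subset_left)
      disj := fun A hA B hB hAB =>
        h.ideal.down _ (h.atoms.disj A hA.1 B hB.1 hAB) _ inter_subset_left
      dense := fun Y hY => by
        obtain ⟨A, hA, hAY⟩ := h.atoms.dense _ hY
        refine ⟨A, ⟨hA, h.ideal.down _ hAY _ fun x hx => ⟨hx.1, fun h' => hx.2 h'.2⟩⟩, ?_⟩
        exact h.ideal.down _ hAY _ fun x hx => ⟨hx.1.1, fun h' => hx.1.2 h'.1⟩ }

/-- **Main theorem.** Let `κ` be a cardinal of countable cofinality.  Then `𝔰_mm = κ` if and only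
if `κ < 𝔠`, there is an ideal `N` on `ω` generated by a family `G` of fewer than `κ` sets such
that `P(ω)/N` is atomic with exactly `κ` atoms (and such that below each `X ⊆ ω` there are either
exactly `κ` or fewer than `max (#G) ℵ₀` atoms), and for no infinite `μ < κ` is there an ideal on
`ω` generated by at most `μ` sets whose quotient is atomic with exactly `μ` atoms. -/
theorem result (κ : Cardinal.{0}) (hκ : κ.ord.cof = ℵ₀) :
    smm = κ ↔
      (κ < 𝔠 ∧
        (∃ N G C : Set (Set ℕ), AtomicIdeal N G C ∧ #G < κ ∧ #C = κ ∧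
          ∀ X : Set ℕ, #{A ∈ C | A \ X ∈ N} = κ ∨ #{A ∈ C | A \ X ∈ N} < max (#G) ℵ₀) ∧
        ∀ μ : Cardinal.{0}, ℵ₀ ≤ μ → μ < κ →
          ¬ ∃ N G C : Set (Set ℕ), AtomicIdeal N G C ∧ #G ≤ μ ∧ #C = μ) := by
  have h0 : ℵ₀ ≤ κ := hκ ▸ Ordinal.cof_ord_le _
  have hne : κ ≠ 0 := fun h => absurd h0 (by rw [h]; exact not_le.mpr Cardinal.aleph0_pos)
  constructor
  · intro h
    obtain ⟨I, hI, hinf, hIκ⟩ := smm_mem h hne
    have hc : κ < 𝔠 := by
      refine lt_of_le_of_ne ?_ ?_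
      · rw [← hIκ]
        refine (mk_set_le I).trans ?_
        simp
      · intro h1
        have h2 : ℵ₀ < (𝔠 : Cardinal.{0}).ord.cof := by
          rw [← Cardinal.two_power_aleph0]
          exact Cardinal.lt_cof_ord_power le_rfl Cardinal.one_lt_two
        rw [← h1, hκ] at h2
        exact lt_irrefl _ h2
    have hsmall : ∀ μ : Cardinal.{0}, ℵ₀ ≤ μ → μ < κ →
        ¬ ∃ N G C : Set (Set ℕ), AtomicIdeal N G C ∧ #G ≤ μ ∧ #C = μ := by
      rintro μ hμ hμκ ⟨N, G, C, hN, hGμ, hCμ⟩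
      obtain ⟨I', hI', hinf', hI'μ⟩ :=
        exists_maximal hN.ideal hN.gen hN.atoms (hGμ.trans hCμ.ge) (hμ.trans hCμ.ge)
      have h1 : smm ≤ μ := csInf_le' ⟨I', hI', hinf', hI'μ.trans hCμ⟩
      rw [h] at h1
      exact absurd hμκ (not_lt.mpr h1)
    refine ⟨hc, ?_, hsmall⟩
    obtain ⟨N, G, C, hN, hG, hC, hGκ, hCκ⟩ := exists_ideal_lt hI hinf (hIκ ▸ hc) (hIκ ▸ hκ)
    have hNGC : AtomicIdeal N G C := ⟨hN, hG, hC⟩
    rw [hIκ] at hGκ hCκ
    refine ⟨N, G, C, hNGC, hGκ, hCκ, fun X => ?_⟩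
    by_contra hcon
    push Not at hcon
    obtain ⟨hcon1, hcon2⟩ := hcon
    have h1 : #{A ∈ C | A \ X ∈ N} ≤ κ := hCκ ▸ mk_le_mk_of_subset fun A hA => hA.1
    have h2 : #{A ∈ C | A \ X ∈ N} < κ := lt_of_le_of_ne h1 hcon1
    have h3 : ℵ₀ ≤ #{A ∈ C | A \ X ∈ N} := (le_max_right _ _).trans hcon2
    have hX : X ∉ N := by
      intro hX
      have hne : Nonempty {A ∈ C | A \ X ∈ N} := by
        rw [← Cardinal.mk_ne_zero_iff]
        intro h4
        rw [h4] at h3
        exact absurd h3 (not_le.mpr Cardinal.aleph0_pos)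
      obtain ⟨A, hA, hAX⟩ := hne
      apply hC.notMem A hA
      refine hN.down _ (hN.union _ hAX _ hX) _ fun x hx => ?_
      by_cases hxX : x ∈ X
      · exact Or.inr hxX
      · exact Or.inl ⟨hx, hxX⟩
    refine hsmall _ h3 h2 ⟨_, _, _, hNGC.restrict X hX, ?_, rfl⟩
    calc #(insert Xᶜ G : Set (Set ℕ)) ≤ #G + 1 := mk_insert_le
      _ ≤ #{A ∈ C | A \ X ∈ N} + #{A ∈ C | A \ X ∈ N} :=
          add_le_add ((le_max_left _ _).trans hcon2) (Cardinal.one_le_aleph0.trans h3)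
      _ = #{A ∈ C | A \ X ∈ N} := Cardinal.add_eq_self h3
  · rintro ⟨hc, ⟨N, G, C, hN, hGκ, hCκ, -⟩, hsmall⟩
    obtain ⟨I, hI, hinf, hIC⟩ :=
      exists_maximal hN.ideal hN.gen hN.atoms (hGκ.le.trans hCκ.ge) (h0.trans hCκ.ge)
    have h1 : smm ≤ κ := csInf_le' ⟨I, hI, hinf, hIC.trans hCκ⟩
    refine le_antisymm h1 ?_
    by_contra hcon
    push Not at hcon
    have hmem : smm ∈ {κ | ∃ I : Set (Set ℕ), MaxIdealIndependent I ∧ I.Infinite ∧ #I = κ} :=
      csInf_mem ⟨κ, I, hI, hinf, hIC.trans hCκ⟩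
    obtain ⟨I', hI', hinf', hI's⟩ := hmem
    have h2 : ℵ₀ ≤ smm := by
      rw [← hI's]
      exact Cardinal.infinite_iff.mp (Set.infinite_coe_iff.mpr hinf')
    apply hsmall smm h2 hcon
    obtain ⟨N', G', C', hN', hG', hC', h3, h4⟩ :=
      exists_ideal hI' hinf' (by rw [hI's]; exact hcon.trans hc)
    rw [hI's] at h3 h4
    exact ⟨N', G', C', ⟨hN', hG', hC'⟩, h3, h4⟩

end Pool.Agent.Results.MP_3fc19d_lc.CountableCofinality
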