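import Mathlib

/-!
# The ideal independence number when the dominating and the ultrafilter number are small

We show in ZFC that if both the dominating number and the ultrafilter number are at most
the first uncountable cardinal, then so is the least cardinality of an (infinite) maximal ideal
independent family.
-/

open Cardinal Set Filter

namespace Pool.Agent.Results.MP_3fc19d_lc.OmegaOne

/-- `I` is ideal independent: a family of infinite subsets of `ω` such that `A \ ⋃ F` is infinite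
for every `A ∈ I` and every finite `F ⊆ I \ {A}`. -/
def IdealIndependent (I : Set (Set ℕ)) : Prop :=
  (∀ A ∈ I, A.Infinite) ∧
    ∀ A ∈ I, ∀ F : Set (Set ℕ), F.Finite → F ⊆ I → A ∉ F → (A \ ⋃₀ F).Infinite

/-- `I` is a maximal ideal independent family. -/
def MaxIdealIndependent (I : Set (Set ℕ)) : Prop :=
  IdealIndependent I ∧ ∀ J : Set (Set ℕ), IdealIndependent J → I ⊆ J → J = I

/-- `𝔰_mm`: the least cardinality of an infinite maximal ideal independent family. -/
noncomputable def smm : Cardinal.{0} :=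
  sInf {κ | ∃ I : Set (Set ℕ), MaxIdealIndependent I ∧ I.Infinite ∧ #I = κ}

/-- `𝔡`: the least cardinality of a family `D` of functions such that every function is
eventually dominated by a member of `D`. -/
noncomputable def dNum : Cardinal.{0} :=
  sInf {κ | ∃ D : Set (ℕ → ℕ), (∀ f : ℕ → ℕ, ∃ g ∈ D, ∀ᶠ n in atTop, f n ≤ g n) ∧ #D = κ}

/-- `𝔲`: the least cardinality of a base of a nonprincipal ultrafilter on `ω`. -/
noncomputable def uNum : Cardinal.{0} :=
  sInf {κ | ∃ (U : Ultrafilter ℕ) (B : Set (Set ℕ)), (U : Filter ℕ) ≤ cofinite ∧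
    (∀ Y ∈ B, Y ∈ U) ∧ (∀ X ∈ U, ∃ Y ∈ B, Y ⊆ X) ∧ #B = κ}

/-! ### Ideals with atomic quotient -/

/-- `N` is a proper ideal on `ω` containing all finite sets. -/
structure IsIdeal (N : Set (Set ℕ)) : Prop where
  fin : ∀ X : Set ℕ, X.Finite → X ∈ N
  down : ∀ X ∈ N, ∀ Y ⊆ X, Y ∈ N
  union : ∀ X ∈ N, ∀ Y ∈ N, X ∪ Y ∈ N

/-- `C` is a complete system of representatives of the atoms of `P(ω)/N`, and `P(ω)/N` is
atomic. -/
structure CompleteAtoms (N C : Set (Set ℕ)) : Prop where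
  notMem : ∀ A ∈ C, A ∉ N
  disj : ∀ A ∈ C, ∀ B ∈ C, A ≠ B → A ∩ B ∈ N
  dense : ∀ X : Set ℕ, X ∉ N → ∃ A ∈ C, A \ X ∈ N

theorem IsIdeal.sUnion {N : Set (Set ℕ)} (hN : IsIdeal N) {F : Set (Set ℕ)} (hF : F.Finite)
    (h : F ⊆ N) : ⋃₀ F ∈ N := by
  induction F, hF using Set.Finite.induction_on with
  | empty => simpa using hN.fin ∅ finite_empty
  | @insert A F _ _ ih =>
    rw [sUnion_insert]
    exact hN.union _ (h (mem_insert _ _)) _ (ih fun x hx => h (mem_insert_of_mem _ hx))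

/-- An ideal generated by at most `κ` sets with atomic quotient with exactly `κ` atoms yields a
maximal ideal independent family of cardinality `κ`. -/
theorem exists_maximal {N G C : Set (Set ℕ)} (hN : IsIdeal N) (hGN : G ⊆ N)
    (hG : ∀ X ∈ N, ∃ g ∈ G, X ⊆ g)
    (hC : CompleteAtoms N C) (hGC : #G ≤ #C) (hinf : ℵ₀ ≤ #C) :
    ∃ I : Set (Set ℕ), MaxIdealIndependent I ∧ I.Infinite ∧ #I = #C := by
  have h1 : #(G × Bool) ≤ #C := by
    rw [Cardinal.mk_prod, Cardinal.lift_uzero, Cardinal.lift_uzero]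
    calc #G * #Bool ≤ #C * #C :=
          mul_le_mul' hGC ((Cardinal.lt_aleph0_of_finite Bool).le.trans hinf)
      _ = #C := Cardinal.mul_eq_self hinf
  obtain ⟨e⟩ := Cardinal.le_def _ _ |>.mp h1
  -- the set attached to each representative
  let f : Set ℕ → Set ℕ := fun A => ⋃₀ {g | ∃ (hg : g ∈ G) (b : Bool), (e (⟨g, hg⟩, b) : Set ℕ) = A}
  have hf1 : ∀ g (hg : g ∈ G) (b : Bool), f (e (⟨g, hg⟩, b)) = g := by
    intro g hg b
    apply Subset.antisymm
    · apply sUnion_subset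
      rintro g' ⟨hg', b', h⟩
      have h2 := e.injective (Subtype.ext h)
      have h3 : g' = g := congrArg (fun z : G × Bool => (z.1 : Set ℕ)) h2
      exact h3.subset
    · exact subset_sUnion_of_mem ⟨hg, b, rfl⟩
  have hfN : ∀ A, f A ∈ N := by
    intro A
    by_cases h : ∃ g, ∃ (hg : g ∈ G) (b : Bool), (e (⟨g, hg⟩, b) : Set ℕ) = A
    · obtain ⟨g, hg, b, rfl⟩ := h
      rw [hf1]
      exact hGN hg
    · have : f A = ∅ := by
        simp only [f]
        rw [sUnion_eq_empty]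
        intro g hg
        exact absurd ⟨g, hg⟩ h
      rw [this]
      exact hN.fin _ finite_empty
  let φ : Set ℕ → Set ℕ := fun A => A ∪ f A
  have hcov : ∀ A ∈ C, ∀ F : Set (Set ℕ), F.Finite → F ⊆ φ '' C → φ A ∉ F →
      ∀ Z ∈ N, ¬ A ⊆ Z ∪ ⋃₀ F := by
    intro A hA F hF hFC hAF Z hZ hsub
    apply hC.notMem A hA
    have h2 : ∀ X ∈ F, A ∩ X ∈ N := by
      intro X hX
      obtain ⟨B, hB, rfl⟩ := hFC hX
      have hne : A ≠ B := by
        rintro rfl
        exact hAF hX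
      exact hN.down _ (hN.union _ (hC.disj A hA B hB hne) _ (hfN B)) _ fun x hx =>
        hx.2.elim (fun h => Or.inl ⟨hx.1, h⟩) (fun h => Or.inr h)
    have h3 : ⋃₀ ((fun X => A ∩ X) '' F) ∈ N := by
      apply hN.sUnion (hF.image _)
      rintro _ ⟨X, hX, rfl⟩
      exact h2 X hX
    refine hN.down _ (hN.union _ hZ _ h3) _ fun x hx => ?_
    rcases hsub hx with h | ⟨X, hX, hxX⟩
    · exact Or.inl h
    · exact Or.inr ⟨A ∩ X, ⟨X, hX, rfl⟩, hx, hxX⟩
  have hφinj : InjOn φ C := by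
    intro A hA B hB hAB
    by_contra hne
    apply hC.notMem A hA
    refine hN.down _ (hN.union _ (hC.disj A hA B hB hne) _ (hfN B)) _ fun x hx => ?_
    have : x ∈ φ B := hAB ▸ (Or.inl hx : x ∈ φ A)
    exact this.elim (fun h => Or.inl ⟨hx, h⟩) (fun h => Or.inr h)
  have hcard : #(φ '' C) = #C := Cardinal.mk_image_eq_of_injOn φ C hφinj
  -- every member of the ideal is covered by one member of the family, in two ways
  have hgen : ∀ Z ∈ N, ∀ X : Set ℕ, ∃ Y ∈ φ '' C, X ≠ Y ∧ Z ⊆ Y := by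
    intro Z hZ X
    obtain ⟨g, hg', hZg⟩ := hG Z hZ
    have hne : (e (⟨g, hg'⟩, true) : Set ℕ) ≠ e (⟨g, hg'⟩, false) := by
      intro h
      have := e.injective (Subtype.ext h)
      simp at this
    by_cases hX : X = φ (e (⟨g, hg'⟩, true))
    · refine ⟨_, ⟨e (⟨g, hg'⟩, false), (e (⟨g, hg'⟩, false)).2, rfl⟩, ?_, ?_⟩
      · intro h
        exact hne (hφinj (e (⟨g, hg'⟩, true)).2 (e (⟨g, hg'⟩, false)).2 (hX.symm.trans h))
      · intro x hx
        exact Or.inr (by rw [hf1]; exact hZg hx)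
    · refine ⟨_, ⟨e (⟨g, hg'⟩, true), (e (⟨g, hg'⟩, true)).2, rfl⟩, hX, ?_⟩
      intro x hx
      exact Or.inr (by rw [hf1]; exact hZg hx)
  refine ⟨φ '' C, ⟨⟨?_, ?_⟩, ?_⟩, ?_, hcard⟩
  · rintro _ ⟨A, hA, rfl⟩ hfin
    exact hC.notMem A hA (hN.fin _ (hfin.subset fun x hx => Or.inl hx))
  · rintro _ ⟨A, hA, rfl⟩ F hF hFC hAF hfin
    exact hcov A hA F hF hFC hAF _ (hN.fin _ hfin) fun x hx => by
      by_cases h : x ∈ ⋃₀ F
      · exact Or.inr h
      · exact Or.inl ⟨Or.inl hx, h⟩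
  · intro J hJ hsub
    apply Subset.antisymm _ hsub
    intro X hX
    by_contra hXC
    by_cases hXN : X ∈ N
    · obtain ⟨Y, hY, hXY, hXsub⟩ := hgen X hXN X
      refine hJ.2 X hX {Y} (finite_singleton Y) (singleton_subset_iff.mpr (hsub hY)) hXY ?_
      refine finite_empty.subset fun x hx => hx.2 ?_
      exact ⟨Y, rfl, hXsub hx.1⟩
    · obtain ⟨A, hA, hAX⟩ := hC.dense X hXN
      have hZ : φ A \ X ∈ N := hN.down _ (hN.union _ hAX _ (hfN A)) _ fun x hx =>
        hx.1.elim (fun h => Or.inl ⟨h, hx.2⟩) (fun h => Or.inr h)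
      obtain ⟨Y, hY, hAY, hXsub⟩ := hgen _ hZ (φ A)
      refine hJ.2 (φ A) (hsub ⟨A, hA, rfl⟩) {X, Y} ((finite_singleton Y).insert X) ?_ ?_ ?_
      · exact insert_subset hX (singleton_subset_iff.mpr (hsub hY))
      · rintro (h | h)
        · exact hXC (h ▸ ⟨A, hA, rfl⟩)
        · exact hAY h
      · refine finite_empty.subset fun x hx => hx.2 ?_
        by_cases hxX : x ∈ X
        · exact ⟨X, Or.inl rfl, hxX⟩
        · exact ⟨Y, Or.inr rfl, hXsub ⟨hx.1, hxX⟩⟩
  · rw [← Set.infinite_coe_iff, Cardinal.infinite_iff, hcard]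
    exact hinf

/-! ### No countable infinite maximal ideal independent family -/

/-- An infinite maximal ideal independent family is uncountable. -/
theorem not_countable {I : Set (Set ℕ)} (hI : MaxIdealIndependent I) (hinf : I.Infinite) :
    ¬ I.Countable := by
  intro hc
  have : Infinite I := hinf.to_subtype
  have : Countable I := hc
  obtain ⟨e⟩ : Nonempty (ℕ ≃ I) := by
    obtain ⟨d⟩ := nonempty_denumerable I
    exact ⟨(Denumerable.eqv I).symm⟩
  -- pick points outside the earlier sets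
  have h1 : ∀ n m : ℕ, ∃ x, m < x ∧ x ∈ (e n : Set ℕ) ∧ ∀ k < n, x ∉ (e k : Set ℕ) := by
    intro n m
    have h2 := hI.1.2 (e n) (e n).2 ((fun k => (e k : Set ℕ)) '' Iio n)
      ((finite_Iio n).image _) (by rintro _ ⟨k, -, rfl⟩; exact (e k).2) (by
        rintro ⟨k, hk, hkn⟩
        have h3 : e k = e n := Subtype.ext hkn
        exact absurd (e.injective h3) (ne_of_lt hk))
    obtain ⟨x, hx, hmx⟩ := h2.exists_gt m
    refine ⟨x, hmx, hx.1, fun k hk hxk => hx.2 ⟨_, ⟨k, hk, rfl⟩, hxk⟩⟩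
  choose F hF1 hF2 hF3 using h1
  let x : ℕ → ℕ := fun n => Nat.rec (F 0 0) (fun n y => F (n + 1) y) n
  have hx : ∀ n, x (n + 1) = F (n + 1) (x n) := fun n => rfl
  have hmono : StrictMono x := strictMono_nat_of_lt_succ fun n => by
    rw [hx]
    exact hF1 _ _
  have hx1 : ∀ n, ∀ k < n, x n ∉ (e k : Set ℕ) := by
    intro n k hk
    cases n with
    | zero => omega
    | succ n =>
      rw [hx]
      exact hF3 _ _ k hk
  have hX : (range x).Infinite := infinite_range_of_injective hmono.injective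
  have hXA : ∀ A ∈ I, (range x ∩ A).Finite := by
    intro A hA
    obtain ⟨k, hk⟩ := e.surjective ⟨A, hA⟩
    refine ((finite_Iic k).image x).subset ?_
    rintro _ ⟨⟨n, rfl⟩, hn⟩
    refine ⟨n, ?_, rfl⟩
    by_contra hcon
    have h2 : k < n := not_le.mp hcon
    refine hx1 n k h2 ?_
    rw [hk]
    exact hn
  have hXI : range x ∉ I := fun h => hX (by simpa using hXA _ h)
  have hJ : IdealIndependent (insert (range x) I) := by
    refine ⟨?_, ?_⟩
    · rintro A (rfl | hA)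
      · exact hX
      · exact hI.1.1 A hA
    · rintro A hA F hF hFI hAF
      rcases hA with rfl | hA
      · have hFI' : F ⊆ I := fun B hB => (hFI hB).resolve_left fun h => hAF (h ▸ hB)
        intro hfin
        apply hX
        have h3 : (⋃ B ∈ F, range x ∩ B).Finite := hF.biUnion fun B hB => hXA B (hFI' hB)
        refine (hfin.union h3).subset fun y hy => ?_
        by_cases h4 : y ∈ ⋃₀ F
        · obtain ⟨B, hB, hyB⟩ := h4
          exact Or.inr (mem_biUnion hB ⟨hy, hyB⟩)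
        · exact Or.inl ⟨hy, h4⟩
      · intro hfin
        have h3 := hI.1.2 A hA (F \ {range x}) (hF.subset fun B hB => hB.1)
          (fun B hB => (hFI hB.1).resolve_left hB.2) (fun h => hAF h.1)
        apply h3
        refine (hfin.union (hXA A hA)).subset fun y hy => ?_
        by_cases h4 : y ∈ range x
        · exact Or.inr ⟨h4, hy.1⟩
        · left
          refine ⟨hy.1, ?_⟩
          rintro ⟨B, hB, hyB⟩
          refine hy.2 ⟨B, ⟨hB, ?_⟩, hyB⟩
          rintro rfl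
          exact h4 hyB
  have h5 := hI.2 _ hJ (subset_insert _ _)
  exact hXI (h5 ▸ mem_insert _ _)

/-! ### The well ordered set of type `ω₁` -/

/-- The well ordered set of type `ω₁`. -/
abbrev W : Type := (ℵ_ 1 : Cardinal.{0}).ord.ToType

theorem mk_W : #W = ℵ_ 1 := Cardinal.mk_ord_toType _

theorem countable_of_lt {α : Type} {s : Set α} (h : #s < ℵ_ 1) : s.Countable := by
  rw [← Cardinal.le_aleph0_iff_set_countable]
  rw [← Cardinal.succ_aleph0] at h
  exact Order.lt_succ_iff.mp h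

theorem lt_of_countable {α : Type} {s : Set α} (h : s.Countable) : #s < ℵ_ 1 := by
  rw [← Cardinal.succ_aleph0]
  exact Order.lt_succ_iff.mpr (Cardinal.le_aleph0_iff_set_countable.mpr h)

theorem countable_Iio (i : W) : (Iio i).Countable := by
  have h := Cardinal.mk_Iio_lt i (by rw [Cardinal.mk_ord_toType, Ordinal.type_toType])
  rw [mk_W] at h
  exact countable_of_lt h

theorem countable_Iic (i : W) : (Iic i).Countable := by
  have h2 : Iic i = insert i (Iio i) := by
    ext x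
    simp [le_iff_eq_or_lt]
  rw [h2]
  exact (countable_Iio i).insert i

theorem exists_bound {S : Set W} (hS : S.Countable) : ∃ δ : W, ∀ s ∈ S, s < δ := by
  by_contra hcon
  push Not at hcon
  have h1 : (univ : Set W) ⊆ ⋃ s ∈ S, Iic s := by
    intro δ _
    obtain ⟨s, hs, h⟩ := hcon δ
    exact mem_biUnion hs h
  have h2 : (univ : Set W).Countable := (hS.biUnion fun s _ => countable_Iic s).mono h1
  have h3 := lt_of_countable h2
  rw [Cardinal.mk_univ, mk_W] at h3
  exact lt_irrefl _ h3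

/-! ### The sequence of almost disjoint sets converging to the ultrafilter -/

section seq

variable (q : Ultrafilter ℕ) (hq : (q : Filter ℕ) ≤ cofinite)

include hq in
theorem notMem_of_finite {X : Set ℕ} (hX : X.Finite) : X ∉ q := by
  intro h
  have h1 : Xᶜ ∈ q := hq hX.compl_mem_cofinite
  exact (Ultrafilter.compl_mem_iff_notMem.mp h1) h

include hq in
theorem mem_of_eventually {X : Set ℕ} (hX : ∀ᶠ n in atTop, n ∈ X) : X ∈ q := by
  apply hq
  rw [Nat.cofinite_eq_atTop]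
  exact hX

include hq in
theorem exists_seq {S : Set (Set ℕ)} (hS : S.Countable) (hSq : ∀ A ∈ S, A ∈ q) :
    ∃ c : ℕ → ℕ, StrictMono c ∧ range c ∉ q ∧ ∀ A ∈ S, ∀ᶠ n in atTop, c n ∈ A := by
  let f : Filter ℕ := atTop ⊓ ⨅ A ∈ S, 𝓟 A
  have hqf : (q : Filter ℕ) ≤ f := by
    refine le_inf ?_ (le_iInf₂ fun A hA => by simpa using hSq A hA)
    rw [← Nat.cofinite_eq_atTop]
    exact hq
  have : NeBot f := q.neBot.mono hqf
  have : IsCountablyGenerated (⨅ A ∈ S, 𝓟 A) := isCountablyGenerated_biInf_principal hS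
  obtain ⟨x, hx⟩ := exists_seq_tendsto f
  obtain ⟨φ, hφ, hy⟩ := strictMono_subseq_of_tendsto_atTop (hx.mono_right inf_le_left)
  have hyf : Tendsto (x ∘ φ) atTop f := hx.comp hφ.tendsto_atTop
  have hA : ∀ A ∈ S, ∀ᶠ n in atTop, (x ∘ φ) n ∈ A := by
    intro A hA
    have h1 : A ∈ f := mem_inf_of_right (mem_iInf_of_mem A (mem_iInf_of_mem hA (mem_principal_self A)))
    exact hyf h1
  have h0 : StrictMono fun n : ℕ => 2 * n := fun a b h => by
    change 2 * a < 2 * b
    omega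
  have h1 : StrictMono fun n : ℕ => 2 * n + 1 := fun a b h => by
    change 2 * a + 1 < 2 * b + 1
    omega
  by_cases h : range ((x ∘ φ) ∘ fun n => 2 * n) ∈ q
  · refine ⟨(x ∘ φ) ∘ fun n => 2 * n + 1, hy.comp h1, ?_, ?_⟩
    · intro h'
      have h2 := q.inter_mem_iff.mpr ⟨h, h'⟩
      have h3 : range ((x ∘ φ) ∘ fun n => 2 * n) ∩ range ((x ∘ φ) ∘ fun n => 2 * n + 1) = ∅ := by
        rw [eq_empty_iff_forall_notMem]
        rintro _ ⟨⟨a, rfl⟩, ⟨b, hb⟩⟩
        have h4 : 2 * b + 1 = 2 * a := hy.injective hb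
        omega
      rw [h3] at h2
      exact q.empty_notMem h2
    · intro A hAS
      exact h1.tendsto_atTop.eventually (hA A hAS)
  · refine ⟨(x ∘ φ) ∘ fun n => 2 * n, hy.comp h0, h, ?_⟩
    intro A hAS
    exact h0.tendsto_atTop.eventually (hA A hAS)

include hq in
theorem exists_family (Y : W → Set ℕ) (hY : ∀ j, Y j ∈ q) :
    ∃ c : W → ℕ → ℕ, (∀ i, StrictMono (c i)) ∧ (∀ j i, j < i → ∀ᶠ n in atTop, c i n ∈ Y j) ∧
      ∀ k i, k < i → ∀ᶠ n in atTop, c i n ∉ range (c k) := by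
  let α : Type := {c : ℕ → ℕ // StrictMono c ∧ range c ∉ q}
  have ex : ∀ (i : W) (g : ∀ k, k < i → α), ∃ a : α,
      (∀ j < i, ∀ᶠ n in atTop, a.1 n ∈ Y j) ∧
        ∀ k (hk : k < i), ∀ᶠ n in atTop, a.1 n ∉ range (g k hk).1 := by
    intro i g
    have : Countable (Iio i) := (countable_Iio i).to_subtype
    obtain ⟨c, hc1, hc2, hc3⟩ := exists_seq q hq
      (S := Y '' Iio i ∪ range fun k : Iio i => (range (g k.1 k.2).1)ᶜ)
      (((countable_Iio i).image Y).union (countable_range _)) (by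
        rintro A (⟨j, -, rfl⟩ | ⟨k, rfl⟩)
        · exact hY j
        · exact Ultrafilter.compl_mem_iff_notMem.mpr (g k.1 k.2).2.2)
    refine ⟨⟨c, hc1, hc2⟩, ?_, ?_⟩
    · intro j hj
      exact hc3 _ (Or.inl ⟨j, hj, rfl⟩)
    · intro k hk
      exact hc3 _ (Or.inr ⟨⟨k, hk⟩, rfl⟩)
  let c : W → α := (wellFounded_lt (α := W)).fix fun i g => Classical.choose (ex i g)
  have hc : ∀ i, c i = Classical.choose (ex i fun k _ => c k) := fun i =>
    (wellFounded_lt (α := W)).fix_eq _ i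
  have hc' : ∀ i, (∀ j < i, ∀ᶠ n in atTop, (c i).1 n ∈ Y j) ∧
        ∀ k (_ : k < i), ∀ᶠ n in atTop, (c i).1 n ∉ range (c k).1 := by
    intro i
    rw [hc i]
    exact Classical.choose_spec (ex i fun k _ => c k)
  exact ⟨fun i => (c i).1, fun i => (c i).2.1, fun j i hji => (hc' i).1 j hji,
    fun k i hki => (hc' i).2 k hki⟩

end seq

/-- The main construction: an ideal with at most `ℵ₁` generators whose quotient is atomic with
exactly `ℵ₁` atoms. -/
theorem exists_atomic (q : Ultrafilter ℕ) (hq : (q : Filter ℕ) ≤ cofinite) (Y : W → Set ℕ)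
    (hY : ∀ j, Y j ∈ q) (hbase : ∀ X ∈ q, ∃ j, Y j ⊆ X) (D : Set (ℕ → ℕ))
    (hD : ∀ f : ℕ → ℕ, ∃ g ∈ D, ∀ᶠ n in atTop, f n ≤ g n) (hDc : #D ≤ ℵ_ 1) :
    ∃ N G C : Set (Set ℕ), IsIdeal N ∧ G ⊆ N ∧ (∀ X ∈ N, ∃ g ∈ G, X ⊆ g) ∧ CompleteAtoms N C ∧
      #G ≤ #C ∧ #C = ℵ_ 1 := by
  obtain ⟨c, hmono, hcY, hcc⟩ := exists_family q hq Y hY
  have hη : ∀ j : W, ∃ η : ℕ → W, Iic j = range η := fun j =>
    (countable_Iic j).exists_eq_range ⟨j, mem_Iic.mpr le_rfl⟩
  choose η hη using hη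
  have hξ : ∀ δ : W, ∃ ξ : ℕ → W, Iic δ = range ξ := fun δ =>
    (countable_Iic δ).exists_eq_range ⟨δ, mem_Iic.mpr le_rfl⟩
  choose ξ hξ using hξ
  let R : W → ℕ → Set ℕ := fun δ m => ⋂ l ∈ Iic m, Y (ξ δ l)
  have hR : ∀ δ m, R δ m ∈ q := fun δ m =>
    (Filter.biInter_mem (finite_Iic m)).mpr fun l _ => hY _
  let N : Set (Set ℕ) := {X | ∀ i, {n | c i n ∈ X} ∉ q}
  let C : Set (Set ℕ) := range fun i => range (c i)
  let gen : W × W × D × ℕ → Set ℕ := fun t =>
    {x | x ∉ Y t.1 ∧ ∀ l n, c (η t.1 l) n = x → n ∉ R t.2.1 (t.2.2.1.1 l + t.2.2.2)}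
  -- intersections of different members of the family
  have hdisj : ∀ i k, i ≠ k → {n | c i n ∈ range (c k)}.Finite := by
    intro i k hik
    rcases lt_or_gt_of_ne hik with h | h
    · have h1 := hcc i k h
      rw [← Nat.cofinite_eq_atTop] at h1
      have h2 : {n | c k n ∈ range (c i)}.Finite := by
        have h3 : {n | ¬ (c k n ∉ range (c i))}.Finite := h1
        simpa using h3
      have h4 : {n | c i n ∈ range (c k)} ⊆ (c i) ⁻¹' (c k '' {n | c k n ∈ range (c i)}) := by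
        rintro n ⟨m, hm⟩
        exact ⟨m, ⟨n, hm.symm⟩, hm⟩
      exact (Finite.preimage (hmono i).injective.injOn (h2.image (c k))).subset h4
    · have h1 := hcc k i h
      rw [← Nat.cofinite_eq_atTop] at h1
      have h3 : {n | ¬ (c i n ∉ range (c k))}.Finite := h1
      simpa using h3
  have hideal : IsIdeal N := by
    refine ⟨?_, ?_, ?_⟩
    · intro X hX i
      exact notMem_of_finite q hq (Finite.preimage (hmono i).injective.injOn hX)
    · intro X hX Z hZ i h
      exact hX i (mem_of_superset h fun n hn => hZ hn)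
    · intro X hX Z hZ i h
      rcases q.union_mem_iff.mp (show {n | c i n ∈ X} ∪ {n | c i n ∈ Z} ∈ q from h) with h | h
      · exact hX i h
      · exact hZ i h
  have hatoms : CompleteAtoms N C := by
    refine ⟨?_, ?_, ?_⟩
    · rintro _ ⟨i, rfl⟩ h
      apply h i
      have : {n | c i n ∈ range (c i)} = Set.univ := by
        ext n
        simp
      rw [this]
      exact univ_mem
    · rintro _ ⟨i, rfl⟩ _ ⟨k, rfl⟩ hne l h
      have hik : i ≠ k := fun h => hne (by rw [h])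
      by_cases hli : l = i
      · subst hli
        exact notMem_of_finite q hq (hdisj l k hik) (mem_of_superset h fun n hn => hn.2)
      · exact notMem_of_finite q hq (hdisj l i hli) (mem_of_superset h fun n hn => hn.1)
    · intro X hX
      have h1 : ∃ i, {n | c i n ∈ X} ∈ q := by
        by_contra hcon
        push Not at hcon
        exact hX hcon
      obtain ⟨i, hi⟩ := h1
      refine ⟨range (c i), ⟨i, rfl⟩, fun l h => ?_⟩
      by_cases hli : l = i
      · subst hli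
        have h2 := q.inter_mem_iff.mpr ⟨hi, h⟩
        have h3 : {n | c l n ∈ X} ∩ {n | c l n ∈ range (c l) \ X} = ∅ := by
          rw [eq_empty_iff_forall_notMem]
          rintro n ⟨h4, h5⟩
          exact h5.2 h4
        rw [h3] at h2
        exact q.empty_notMem h2
      · exact notMem_of_finite q hq (hdisj l i hli) (mem_of_superset h fun n hn => hn.1)
  have hgenN : range gen ⊆ N := by
    rintro _ ⟨⟨j, δ, g, k⟩, rfl⟩ i h
    by_cases hij : i ≤ j
    · obtain ⟨l, hl⟩ : i ∈ range (η j) := by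
        rw [← hη]
        exact hij
      have h2 := q.inter_mem_iff.mpr ⟨h, hR δ (g.1 l + k)⟩
      have h3 : {n | c i n ∈ gen (j, δ, g, k)} ∩ R δ (g.1 l + k) = ∅ := by
        rw [eq_empty_iff_forall_notMem]
        rintro n ⟨h4, h5⟩
        exact h4.2 l n (by rw [hl]) h5
      rw [h3] at h2
      exact q.empty_notMem h2
    · have h1 : {n | c i n ∈ Y j} ∈ q := mem_of_eventually q hq (hcY j i (not_le.mp hij))
      have h2 := q.inter_mem_iff.mpr ⟨h, h1⟩
      have h3 : {n | c i n ∈ gen (j, δ, g, k)} ∩ {n | c i n ∈ Y j} = ∅ := by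
        rw [eq_empty_iff_forall_notMem]
        rintro n ⟨h4, h5⟩
        exact h4.1 h5
      rw [h3] at h2
      exact q.empty_notMem h2
  have hgen : ∀ X ∈ N, ∃ g ∈ range gen, X ⊆ g := by
    intro X hX
    have hXq : X ∉ q := by
      intro h
      obtain ⟨j, hj⟩ := hbase X h
      obtain ⟨i, hi⟩ := exists_bound (countable_singleton j)
      refine hX i (mem_of_superset (mem_of_eventually q hq (hcY j i (hi j rfl))) fun n hn => hj hn)
    obtain ⟨j, hj⟩ := hbase Xᶜ (Ultrafilter.compl_mem_iff_notMem.mpr hXq)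
    have h1 : ∀ l, ∃ z, Y z ⊆ {n | c (η j l) n ∈ X}ᶜ := fun l =>
      hbase _ (Ultrafilter.compl_mem_iff_notMem.mpr (hX (η j l)))
    choose z hz using h1
    obtain ⟨δ, hδ⟩ := exists_bound (countable_range z)
    have h2 : ∀ l, ∃ m, ξ δ m = z l := by
      intro l
      have : z l ∈ Iic δ := (hδ _ ⟨l, rfl⟩).le
      rw [hξ] at this
      exact this
    choose m hm using h2
    obtain ⟨g, hg, hmg⟩ := hD m
    obtain ⟨a, ha⟩ := eventually_atTop.mp hmg
    obtain ⟨k, hk⟩ : ∃ k, ∀ l, m l ≤ g l + k := by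
      refine ⟨∑ l ∈ Finset.range a, m l, fun l => ?_⟩
      by_cases hl : a ≤ l
      · exact (ha l hl).trans (Nat.le_add_right _ _)
      · have h3 : m l ≤ ∑ l ∈ Finset.range a, m l :=
          Finset.single_le_sum (f := m) (fun _ _ => Nat.zero_le _)
            (Finset.mem_range.mpr (not_le.mp hl))
        omega
    refine ⟨_, ⟨(j, δ, ⟨g, hg⟩, k), rfl⟩, fun x hx => ⟨fun h => hj h hx, ?_⟩⟩
    rintro l n hn hR'
    have h3 : n ∈ Y (ξ δ (m l)) := by
      have := mem_iInter₂.mp hR' (m l) (hk l)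
      exact this
    rw [hm] at h3
    exact hz l h3 (show c (η j l) n ∈ X by rw [hn]; exact hx)
  have hCc : #C = ℵ_ 1 := by
    rw [← mk_W]
    apply Cardinal.mk_range_eq
    intro i k hik
    by_contra hne
    have h1 := hdisj i k hne
    have h2 : {n | c i n ∈ range (c k)} = Set.univ := by
      have h3 : range (c i) = range (c k) := hik
      rw [← h3]
      ext n
      simp
    rw [h2] at h1
    exact infinite_univ h1
  refine ⟨N, range gen, C, hideal, hgenN, hgen, hatoms, ?_, hCc⟩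
  rw [hCc]
  refine Cardinal.mk_range_le.trans ?_
  have hinf : ℵ₀ ≤ (ℵ_ 1 : Cardinal.{0}) := Cardinal.aleph0_le_aleph 1
  have h1 : #(W × W × D × ℕ) = ℵ_ 1 * (ℵ_ 1 * (#D * ℵ₀)) := by
    simp only [Cardinal.mk_prod, Cardinal.lift_id, Cardinal.mk_nat, mk_W]
  rw [h1]
  calc (ℵ_ 1 : Cardinal.{0}) * (ℵ_ 1 * (#D * ℵ₀)) ≤ ℵ_ 1 * (ℵ_ 1 * (ℵ_ 1 * ℵ_ 1)) := by
        gcongr
    _ = ℵ_ 1 := by
        rw [Cardinal.mul_eq_self hinf, Cardinal.mul_eq_self hinf, Cardinal.mul_eq_self hinf]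

/-- A nonempty set of cardinals of the given shape attains its infimum. -/
theorem dNum_mem : ∃ D : Set (ℕ → ℕ), (∀ f : ℕ → ℕ, ∃ g ∈ D, ∀ᶠ n in atTop, f n ≤ g n) ∧
    #D = dNum := by
  have h : {κ | ∃ D : Set (ℕ → ℕ), (∀ f : ℕ → ℕ, ∃ g ∈ D, ∀ᶠ n in atTop, f n ≤ g n) ∧
      #D = κ}.Nonempty := ⟨_, univ, fun f => ⟨f, mem_univ _, Eventually.of_forall fun _ => le_rfl⟩,
        rfl⟩
  exact csInf_mem h

theorem uNum_mem : ∃ (U : Ultrafilter ℕ) (B : Set (Set ℕ)), (U : Filter ℕ) ≤ cofinite ∧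
    (∀ Y ∈ B, Y ∈ U) ∧ (∀ X ∈ U, ∃ Y ∈ B, Y ⊆ X) ∧ #B = uNum := by
  have h : {κ | ∃ (U : Ultrafilter ℕ) (B : Set (Set ℕ)), (U : Filter ℕ) ≤ cofinite ∧
      (∀ Y ∈ B, Y ∈ U) ∧ (∀ X ∈ U, ∃ Y ∈ B, Y ⊆ X) ∧ #B = κ}.Nonempty := by
    refine ⟨_, Filter.hyperfilter ℕ, {X | X ∈ Filter.hyperfilter ℕ}, Filter.hyperfilter_le_cofinite,
      fun Y hY => hY, fun X hX => ⟨X, hX, Subset.rfl⟩, rfl⟩
  exact csInf_mem h

/-- **Main theorem.** If the dominating number and the ultrafilter number are at most `ℵ₁`, then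
the least cardinality of an infinite maximal ideal independent family is `ℵ₁`. -/
theorem result (h : max dNum uNum ≤ ℵ_ 1) : smm = ℵ_ 1 := by
  obtain ⟨D, hD, hDc⟩ := dNum_mem
  obtain ⟨q, B, hq, hB, hbase, hBc⟩ := uNum_mem
  have hBle : #B ≤ #W := by
    rw [hBc, mk_W]
    exact (le_max_right _ _).trans h
  obtain ⟨e⟩ := Cardinal.le_def _ _ |>.mp hBle
  classical
  let Y : W → Set ℕ := fun j => if hj : ∃ b : B, e b = j then (hj.choose : Set ℕ) else univ
  have hY : ∀ j, Y j ∈ q := by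
    intro j
    by_cases hj : ∃ b : B, e b = j
    · simp only [Y, dif_pos hj]
      exact hB _ hj.choose.2
    · simp only [Y, dif_neg hj]
      exact univ_mem
  have hYb : ∀ X ∈ q, ∃ j, Y j ⊆ X := by
    intro X hX
    obtain ⟨b, hb, hbX⟩ := hbase X hX
    refine ⟨e ⟨b, hb⟩, ?_⟩
    have hj : ∃ b' : B, e b' = e ⟨b, hb⟩ := ⟨_, rfl⟩
    have h1 : hj.choose = ⟨b, hb⟩ := e.injective hj.choose_spec
    simp only [Y, dif_pos hj, h1]
    exact hbX
  obtain ⟨N, G, C, hN, hGN, hG, hC, hGC, hCc⟩ := exists_atomic q hq Y hY hYb D hD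
    (hDc.trans_le ((le_max_left _ _).trans h))
  have hinf : ℵ₀ ≤ (ℵ_ 1 : Cardinal.{0}) := Cardinal.aleph0_le_aleph 1
  obtain ⟨I, hI, hIinf, hIC⟩ := exists_maximal hN hGN hG hC hGC (hCc ▸ hinf)
  apply le_antisymm
  · exact csInf_le' ⟨I, hI, hIinf, hIC.trans hCc⟩
  · refine le_csInf ⟨_, I, hI, hIinf, rfl⟩ ?_
    rintro κ ⟨I', hI', hinf', rfl⟩
    by_contra hcon
    exact not_countable hI' hinf' (countable_of_lt (not_le.mp hcon))

end Pool.Agent.Results.MP_3fc19d_lc.OmegaOne
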